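import Pool.Agent.H185D.Glue

set_option autoImplicit false

namespace Pool.Agent.H185D
open Finset Pool.Agent.H160R2.HF Pool.Agent.H160R2.HF.OrGraph Pool.Agent.H884R2.HFP
open Pool.Agent.H185C

universe u v

variable {V : Type u} {E : Type v} [Fintype V] [Fintype E] [DecidableEq V] [DecidableEq E]

/-- the base of the link multigraph with few links in every `Zs` -/
theorem exists_tree2 (G : OrGraph V E) (hc : G.Cubic) (F : Finset E)
    (π : Equiv.Perm V) [Fintype (OddCyc π)] [DecidableEq (OddCyc π)] [Nonempty (OddCyc π)]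
    (ε : V → E) (hπ : IsPerm G F π ε) (k : ℕ) (hk : 3 ≤ k) (hG : CycConn G k)
    (hn : 2 * k ≤ Fintype.card V) (blk : V → V) (hb : IsBlocks π LL blk)
    {m : ℕ} (a b : Fin m → V) (a' b' : Fin m → OddCyc π) (hl : Links G π a b a' b')
    (hK : ∀ Y : Finset (OddCyc π), (∃ y, y ∈ Y) → (∃ y, y ∉ Y) →
        2 * k ≤ (univ.filter (fun i => ¬ (a' i ∈ Y ↔ b' i ∈ Y))).card)
    (hPP : (PP blk a b).Nonempty)
    (hnum : ∑ d ∈ Finset.Icc k (Fintype.card E), ((1000000 : ℝ) ^ d *
      ((2 * d + 1) * (2 * (PP blk a b).card) ^ (2 * d / k + 1)) *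
      ((14 * LL * d).choose (d / 5 + 1) : ℝ) * (1 / k) ^ (d / 5 + 1)) < 1) :
    ∃ B : Finset (Fin m), (∀ X, Thick G X → (B ∩ Zs blk a b X).card ≤ (G.cut X).card / 5)
      ∧ ∀ T : OddCyc π → ZMod 2, ∑ i, T i = 0 →
        ∃ R ⊆ B, ∀ i, (((R.filter (fun e => a' e = i)).card +
          (R.filter (fun e => b' e = i)).card : ℕ) : ZMod 2) = T i := by
  classical
  have hne : ∀ i, a i ≠ b i := by
    intro i h
    apply hl.hne i
    apply Subtype.ext
    rw [hl.ha, hl.hb, h]
  -- representatives: thick sets of least boundary with a given trace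
  have hrep : ∀ X : Finset V, Thick G X → ∃ Y : Finset V, Thick G Y ∧ Y ∩ PP blk a b = X ∩ PP blk a b ∧
      ∀ Z : Finset V, Thick G Z → Z ∩ PP blk a b = X ∩ PP blk a b →
        (G.cut Y).card ≤ (G.cut Z).card := by
    intro X hX
    obtain ⟨Y, hY, hmin⟩ := Finset.exists_min_image
      (univ.filter (fun Z => Thick G Z ∧ Z ∩ PP blk a b = X ∩ PP blk a b))
      (fun Z => (G.cut Z).card) ⟨X, by simp [hX]⟩
    rw [Finset.mem_filter] at hY
    exact ⟨Y, hY.2.1, hY.2.2, fun Z h1 h2 => hmin Z (by simp [h1, h2])⟩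
  -- one representative for every trace
  set Q : Finset (Finset V) := (univ.filter (fun X => Thick G X)).image (fun X => X ∩ PP blk a b)
    with hQ
  have hQ' : ∀ q : Finset V, q ∈ Q → ∃ Y : Finset V, Thick G Y ∧ Y ∩ PP blk a b = q ∧
      ∀ Z : Finset V, Thick G Z → Z ∩ PP blk a b = q → (G.cut Y).card ≤ (G.cut Z).card := by
    intro q hq
    rw [hQ, Finset.mem_image] at hq
    obtain ⟨X, hX, rfl⟩ := hq
    exact hrep X (Finset.mem_filter.1 hX).2
  choose! rep hrep1 hrep2 hrep3 using hQ'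
  set A : Finset (Finset V) := Q.image rep with hA
  have hAthick : ∀ X ∈ A, Thick G X := by
    intro X hX
    rw [hA, Finset.mem_image] at hX
    obtain ⟨q, hq, rfl⟩ := hX
    exact hrep1 q hq
  have hAinj : ∀ X ∈ A, ∀ Y ∈ A, X ∩ PP blk a b = Y ∩ PP blk a b → X = Y := by
    intro X hX Y hY h
    rw [hA, Finset.mem_image] at hX hY
    obtain ⟨q, hq, rfl⟩ := hX
    obtain ⟨q', hq', rfl⟩ := hY
    rw [hrep2 q hq, hrep2 q' hq'] at h
    rw [h]
  have hcut : ∀ Y : Finset (OddCyc π), Y.Nonempty → Yᶜ.Nonempty →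
      2 * k ≤ (univ.filter (fun e => ¬ (a' e ∈ Y ↔ b' e ∈ Y))).card := by
    intro Y h3 h4
    obtain ⟨y, hy⟩ := h4
    exact hK Y h3 ⟨y, by simpa using hy⟩
  set J : Finset (Finset (Fin m)) := A.biUnion
    (fun X => (Zs blk a b X).powersetCard ((G.cut X).card / 5 + 1)) with hJ
  have h1k : (2 / ((2 * k : ℕ) : ℝ)) = 1 / k := by
    have : (k : ℝ) ≠ 0 := by
      have : (0 : ℝ) < k := by exact_mod_cast (by omega : 0 < k)
      exact this.ne'
    push_cast
    field_simp
  have hsum : ∑ S ∈ J, (2 / ((2 * k : ℕ) : ℝ)) ^ S.card < 1 := by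
    rw [h1k]
    refine lt_of_le_of_lt ?_ hnum
    refine (sum_biUnion_le' _ _ _ (fun b => by positivity)).trans ?_
    have h5 : ∀ X : Finset V, ∑ S ∈ (Zs blk a b X).powersetCard ((G.cut X).card / 5 + 1),
        (1 / k : ℝ) ^ S.card ≤
        ((14 * LL * (G.cut X).card).choose ((G.cut X).card / 5 + 1) : ℝ) *
          (1 / k) ^ ((G.cut X).card / 5 + 1) := by
      intro X
      rw [Finset.sum_congr rfl (fun S hS => by rw [(Finset.mem_powersetCard.1 hS).2])]
      rw [Finset.sum_const, Finset.card_powersetCard, nsmul_eq_mul]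
      apply mul_le_mul_of_nonneg_right _ (by positivity)
      have h6 := card_Zs G hc F π ε hπ LL (by unfold LL; norm_num) blk hb a b hne hl.hcut X
      exact_mod_cast Nat.choose_le_choose _ h6
    refine (Finset.sum_le_sum fun X _ => h5 X).trans ?_
    have hmaps : ∀ X ∈ A, (G.cut X).card ∈ Finset.Icc k (Fintype.card E) := by
      intro X hX
      have hX' := hAthick X hX
      rw [Finset.mem_Icc]
      exact ⟨hG X hX'.2.2.1 hX'.2.2.2, Finset.card_le_univ _⟩
    rw [← Finset.sum_fiberwise_of_maps_to hmaps]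
    apply Finset.sum_le_sum
    intro d _
    rw [Finset.sum_congr rfl (fun X hX => by rw [(Finset.mem_filter.1 hX).2])]
    rw [Finset.sum_const, nsmul_eq_mul]
    have h7 := trace_count' G hc k hk hG hn d (PP blk a b) hPP
      (A.filter (fun X => (G.cut X).card = d)) (by
        intro X hX
        rw [Finset.mem_filter] at hX
        exact ⟨hAthick X hX.1, hX.2⟩) (by
        intro X hX Y hY h
        exact hAinj X (Finset.mem_filter.1 hX).1 Y (Finset.mem_filter.1 hY).1 h)
    have h8 : (((A.filter (fun X => (G.cut X).card = d)).card : ℕ) : ℝ)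
        ≤ (1000000 : ℝ) ^ d * ((2 * d + 1) * (2 * (PP blk a b).card) ^ (2 * d / k + 1)) := by
      exact_mod_cast h7
    rw [← mul_assoc]
    apply mul_le_mul_of_nonneg_right _ (by positivity)
    exact mul_le_mul_of_nonneg_right h8 (by positivity)
  obtain ⟨B, hB1, hB2⟩ := rand_tree a' b' (2 * k) (by omega) hcut J hsum
  refine ⟨B, ?_, ?_⟩
  · intro X hX
    by_contra hcon
    push Not at hcon
    have hq : X ∩ PP blk a b ∈ Q := by
      rw [hQ]
      exact Finset.mem_image_of_mem _ (by simp [hX])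
    have h1 := hrep1 _ hq
    have h2 := hrep2 _ hq
    have h3 := hrep3 _ hq X hX rfl
    have h4 : Zs blk a b (rep (X ∩ PP blk a b)) = Zs blk a b X := Zs_trace blk a b _ _ h2
    have h5 : (G.cut (rep (X ∩ PP blk a b))).card / 5 ≤ (G.cut X).card / 5 :=
      Nat.div_le_div_right h3
    obtain ⟨S, hS1, hS2⟩ := Finset.exists_subset_card_eq (s := B ∩ Zs blk a b X)
      (n := (G.cut (rep (X ∩ PP blk a b))).card / 5 + 1) (by omega)
    apply hB2 S
    · rw [hJ, Finset.mem_biUnion]
      refine ⟨rep (X ∩ PP blk a b), by rw [hA]; exact Finset.mem_image_of_mem _ hq, ?_⟩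
      rw [Finset.mem_powersetCard, h4]
      exact ⟨hS1.trans Finset.inter_subset_right, hS2⟩
    · exact hS1.trans Finset.inter_subset_left
  · intro T hT
    exact exists_join a' b' (by
      intro Y h3 h4
      have := hcut Y h3 h4
      rw [← Finset.card_pos]
      omega) B hB1 T hT

end Pool.Agent.H185D
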