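import Pool.Agent.H185D.AsmA

set_option autoImplicit false

namespace Pool.Agent.H185D
open Finset Pool.Agent.H160R2.HF Pool.Agent.H160R2.HF.OrGraph Pool.Agent.H884R2.HFP
open Pool.Agent.H185C

universe u v

variable {V : Type u} {E : Type v} [Fintype V] [Fintype E] [DecidableEq V] [DecidableEq E]

theorem sum_csize (π : Equiv.Perm V) [Fintype (Cyc π)] :
    ∑ c : Cyc π, csize π c = Fintype.card V := by
  classical
  rw [← Finset.card_univ, Finset.card_eq_sum_card_fiberwise (f := cls π) (t := univ)]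
  · apply Finset.sum_congr rfl
    intro c _
    unfold csize vert
    congr 1
    ext v
    simp
  · intro v _
    simp

theorem even_oddCyc (G : OrGraph V E) (hc : G.Cubic) (π : Equiv.Perm V) [Fintype (OddCyc π)] :
    Even (Fintype.card (OddCyc π)) := by
  classical
  letI := Fintype.ofFinite (Cyc π)
  have h1 := even_card G hc
  rw [← sum_csize π, Finset.even_sum_iff_even_card_odd] at h1
  rw [Fintype.card_subtype]
  exact h1

/-- the theorem for a 2-factor with an odd circuit -/
theorem main_multi2 (G : OrGraph V E) (hc : G.Cubic) (F : Finset E) (hF : G.IsTwoFactor F)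
    (π : Equiv.Perm V) (ε : V → E) (hπ : IsPerm G F π ε) (k : ℕ) (hk : LL ≤ k)
    (hG : CycConn G k) (hodd : Nonempty (OddCyc π))
    (hnum : ∀ q : ℕ, q ≤ 8 * LL * k * Nat.card (OddCyc π) →
      ∑ d ∈ Finset.Icc k (Fintype.card E), ((1000000 : ℝ) ^ d *
      ((2 * d + 1) * (2 * q) ^ (2 * d / k + 1)) *
      ((14 * LL * d).choose (d / 5 + 1) : ℝ) * (1 / k) ^ (d / 5 + 1)) < 1) :
    ∃ φ₂ φ₄ : E → ℤ, G.IsHalfFlowPair φ₂ φ₄ ∧ ∀ e, φ₂ e ≠ 0 ↔ e ∈ F := by
  classical
  have hLL : 3 ≤ LL := by unfold LL; norm_num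
  letI := Fintype.ofFinite (Cyc π)
  letI := Fintype.ofFinite (OddCyc π)
  have hev2 := even_oddCyc G hc π
  have h2 : ∃ v w, cls π v ≠ cls π w := by
    have h3 : 0 < Fintype.card (OddCyc π) := Fintype.card_pos
    have h4 : 1 < Fintype.card (OddCyc π) := by
      obtain ⟨r, hr⟩ := hev2
      omega
    obtain ⟨c, c', hcc⟩ := Fintype.exists_pair_of_one_lt_card h4
    obtain ⟨v, hv⟩ := Quotient.exists_rep c.1
    obtain ⟨w, hw⟩ := Quotient.exists_rep c'.1
    refine ⟨v, w, fun h => hcc (Subtype.ext ?_)⟩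
    rw [← hv, ← hw]
    exact h
  have hn := two_k_le G hc F hF π ε hπ k hG h2
  have hcyc : ∀ v, ∀ j, 1 ≤ j → j < LL → (π ^ j) v ≠ v := fun v j h1 h3 =>
    cyc_long G hc F hF π ε hπ k hG h2 v j h1 (by omega)
  obtain ⟨blk, hb⟩ := exists_blocks π LL (by omega) hcyc
  obtain ⟨s, hs1, hs2⟩ := exists_select G hc F π ε hπ blk hb hcyc
  obtain ⟨m, a, b, a', b', hl, hm, hK⟩ := exists_links G F hF π ε hπ k hG
  have hmpos : ∃ i : Fin m, True := by
    have y : OddCyc π := Classical.choice hodd
    have h3 : ∃ z : OddCyc π, z ≠ y := by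
      have h4 : 1 < Fintype.card (OddCyc π) := by
        have h5 : 0 < Fintype.card (OddCyc π) := Fintype.card_pos
        obtain ⟨r, hr⟩ := hev2
        omega
      exact Fintype.exists_ne_of_one_lt_card h4 y
    obtain ⟨z, hz⟩ := h3
    have h6 := hK {y} ⟨y, by simp⟩ ⟨z, by simpa using hz⟩
    have h7 : 0 < (univ.filter (fun i => ¬ (a' i ∈ ({y} : Finset (OddCyc π)) ↔ b' i ∈ ({y} : Finset (OddCyc π))))).card := by
      omega
    obtain ⟨i, _⟩ := Finset.card_pos.1 h7
    exact ⟨i, trivial⟩
  have hPP : (PP blk a b).Nonempty := by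
    obtain ⟨i, _⟩ := hmpos
    exact ⟨a i, by simp only [PP, Finset.mem_filter, Finset.mem_univ, true_and]; exact ⟨i, Or.inl rfl⟩⟩
  have hPPc : (PP blk a b).card ≤ 8 * LL * k * Nat.card (OddCyc π) := by
    have h3 := card_PP π LL blk hb a b
    rw [Nat.card_eq_fintype_card]
    calc (PP blk a b).card ≤ 4 * LL * m := h3
      _ ≤ 4 * LL * (2 * k * Fintype.card (OddCyc π)) := Nat.mul_le_mul_left _ hm
      _ = _ := by ring
  obtain ⟨B0, hB2, hB3⟩ := exists_tree2 G hc F π ε hπ k (by omega) hG hn blk hb a b a' b' hl hK hPP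
    (hnum _ hPPc)
  -- the join
  obtain ⟨R, hRB, hR⟩ := hB3 (fun _ => 1) (by
    rw [Finset.sum_const, Finset.card_univ, nsmul_eq_mul, mul_one]
    exact (ZMod.natCast_eq_zero_iff_even).2 hev2)
  let G' : OrGraph V (Fin m) := ⟨a, b⟩
  obtain ⟨N, hN1, hN2⟩ := exists_pairing_of_edges R (fun e => blk (G'.t e))
    (fun e => blk (G'.h e))
  set O : Finset V := univ.filter (fun b => Odd (cnt G' R blk b)) with hO
  have hOmem : ∀ b, b ∈ O ↔ Odd (cnt G' R blk b) := by intro b; simp [hO]
  have hNO : ∀ b ∈ O, N b ∈ O ∧ N (N b) = b ∧ N b ≠ b := by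
    intro b hbO
    have h3 := hN1 b ((hOmem b).1 hbO)
    exact ⟨(hOmem _).2 h3.1, h3.2⟩
  have hOblk : ∀ b ∈ O, blk b = b := by
    intro b hbO
    have h3 := (hOmem b).1 hbO
    have h4 : cnt G' R blk b ≠ 0 := by
      intro h0; rw [h0] at h3; exact absurd h3 (by decide)
    unfold cnt at h4
    by_cases h5 : (R.filter (fun e => blk (G'.t e) = b)).card = 0
    · have h6 : 0 < (R.filter (fun e => blk (G'.h e) = b)).card := by omega
      obtain ⟨e, he⟩ := Finset.card_pos.1 h6
      rw [← (Finset.mem_filter.1 he).2, hb.1]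
    · obtain ⟨e, he⟩ := Finset.card_pos.1 (Nat.pos_of_ne_zero h5)
      rw [← (Finset.mem_filter.1 he).2, hb.1]
  have hclsblk : ∀ v, cls π (blk v) = cls π v := by
    intro v
    obtain ⟨j, _, hj, _⟩ := hb.2.1 v
    conv_rhs => rw [← hj]
    rw [cls_pow]
  -- positions
  have hs3 : ∀ b, blk b = b → blk (s b) = b ∧ blk (π (s b)) = b ∧ cls π (s b) = cls π b := by
    intro b hbb
    obtain ⟨i, hi1, hi2⟩ := hs1 b hbb
    refine ⟨?_, ?_, ?_⟩
    · rw [hi2]; exact hb.2.2 b hbb i (by omega)
    · rw [hi2, ← Equiv.Perm.mul_apply, ← pow_succ']; exact hb.2.2 b hbb (i + 1) hi1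
    · rw [hi2, cls_pow]
  have hsinj : ∀ b ∈ O, ∀ b' ∈ O, s b = s b' → b = b' := by
    intro b h3 b' h4 h5
    rw [← (hs3 b (hOblk b h3)).1, ← (hs3 b' (hOblk b' h4)).1, h5]
  have hstep : ∀ v, Near G 1 v (π v) := by
    intro v
    right
    refine ⟨ε v, ?_⟩
    rcases hπ.2.2.2 v with ⟨h3, h4⟩ | ⟨h3, h4⟩
    · left; exact ⟨h3.symm, h4⟩
    · right; exact ⟨h4.symm, h3⟩
  set P : Finset V := O.image s with hPdef
  have hP : ∀ v ∈ P, π v ∉ P := by
    intro v hv hv'
    rw [hPdef, Finset.mem_image] at hv hv'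
    obtain ⟨b, hbO, rfl⟩ := hv
    obtain ⟨b', hbO', h3⟩ := hv'
    by_cases hbb : b = b'
    · subst hbb
      exact hcyc (s b) 1 le_rfl (by omega) (by rw [pow_one]; exact h3.symm)
    · apply hs2 b b' (hOblk b hbO) (hOblk b' hbO') hbb
      rw [h3]
      exact near_mono G 1 10 (by norm_num) _ _ (hstep _)
  have hev : ∀ v, Even ((univ.filter (fun w => π.SameCycle v w)).card +
      (P.filter (fun w => π.SameCycle v w)).card) := by
    intro v
    have h3 : (univ.filter (fun w => π.SameCycle v w)) = univ.filter (fun w => cls π w = cls π v) := by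
      ext w
      simp only [Finset.mem_filter, Finset.mem_univ, true_and]
      rw [cls_eq]
      exact ⟨fun h => h.symm, fun h => h.symm⟩
    have h4 : (P.filter (fun w => π.SameCycle v w)).card =
        (O.filter (fun b => cls π b = cls π v)).card := by
      rw [hPdef, Finset.filter_image, Finset.card_image_of_injOn]
      · congr 1
        ext b
        simp only [Finset.mem_filter]
        constructor
        · rintro ⟨h5, h6⟩
          refine ⟨h5, ?_⟩
          rw [← (hs3 b (hOblk b h5)).2.2, cls_eq]; exact h6.symm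
        · rintro ⟨h5, h6⟩
          refine ⟨h5, ?_⟩
          rw [← (hs3 b (hOblk b h5)).2.2, cls_eq] at h6; exact h6.symm
      · intro b hb1 b' hb2 h5
        simp only [Finset.coe_filter, Set.mem_setOf_eq] at hb1 hb2
        exact hsinj b hb1.1 b' hb2.1 h5
    have h6 : cnt G' R (fun w => cls π (blk w)) (cls π v) =
        ∑ b ∈ univ.filter (fun b => cls π b = cls π v), cnt G' R blk b :=
      cnt_comp G' R blk (cls π) (cls π v)
    have h7 : cnt G' R (fun w => cls π (blk w)) (cls π v) =
        (R.filter (fun e => cls π (a e) = cls π v)).card +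
          (R.filter (fun e => cls π (b e) = cls π v)).card := by
      unfold cnt
      simp_rw [hclsblk]
      rfl
    have h8 := odd_filter_parity (univ.filter (fun b => cls π b = cls π v)) (cnt G' R blk)
    rw [← h6, h7] at h8
    have h9 : ((univ.filter (fun b => cls π b = cls π v)).filter
        (fun b => Odd (cnt G' R blk b))) = O.filter (fun b => cls π b = cls π v) := by
      ext b; simp [hO, and_comm]
    rw [h9] at h8
    rw [h3, h4]
    have hsz : csize π (cls π v) = (univ.filter (fun w => cls π w = cls π v)).card := by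
      unfold csize vert
      congr 1
      ext w
      simp
    by_cases hov : Odd (csize π (cls π v))
    · have h5 := hR ⟨cls π v, hov⟩
      have h11 : (R.filter (fun e => a' e = ⟨cls π v, hov⟩)) =
          R.filter (fun e => cls π (a e) = cls π v) := by
        apply Finset.filter_congr
        intro e _
        rw [← hl.ha, Subtype.ext_iff]
      have h12 : (R.filter (fun e => b' e = ⟨cls π v, hov⟩)) =
          R.filter (fun e => cls π (b e) = cls π v) := by
        apply Finset.filter_congr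
        intro e _
        rw [← hl.hb, Subtype.ext_iff]
      rw [h11, h12] at h5
      have h10 : (((R.filter (fun e => cls π (a e) = cls π v)).card +
          (R.filter (fun e => cls π (b e) = cls π v)).card : ℕ) : ZMod 2) =
          ((1 : ℕ) : ZMod 2) := by rw [h5]; simp
      rw [ZMod.natCast_eq_natCast_iff'] at h10
      rw [hsz, Nat.odd_iff] at hov
      rw [Nat.even_iff] at h8 ⊢
      omega
    · have h11 : (R.filter (fun e => cls π (a e) = cls π v)) = ∅ := by
        apply Finset.filter_eq_empty_iff.2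
        intro e _ he
        apply hov
        rw [← he, ← hl.ha]
        exact (a' e).2
      have h12 : (R.filter (fun e => cls π (b e) = cls π v)) = ∅ := by
        apply Finset.filter_eq_empty_iff.2
        intro e _ he
        apply hov
        rw [← he, ← hl.hb]
        exact (b' e).2
      rw [h11, h12] at h8
      rw [hsz, Nat.odd_iff] at hov
      rw [Nat.even_iff] at h8 ⊢
      simp only [Finset.card_empty] at h8
      omega
  obtain ⟨B, br, hBF, hbr, hdeg⟩ := exists_breaks G F π ε hπ P hP hev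
  -- the breaks
  let brk : V → V := fun b => br (s b)
  have hbrk : ∀ b ∈ O, (brk b = s b ∨ brk b = π (s b)) := fun b h3 =>
    hbr (s b) (Finset.mem_image_of_mem s h3)
  have hblkbrk : ∀ b ∈ O, blk (brk b) = b := by
    intro b h3
    rcases hbrk b h3 with h4 | h4
    · rw [h4]; exact (hs3 b (hOblk b h3)).1
    · rw [h4]; exact (hs3 b (hOblk b h3)).2.1
  set U : Finset V := P.image br with hU
  have hUmem : ∀ u, u ∈ U ↔ ∃ b ∈ O, brk b = u := by
    intro u
    rw [hU, hPdef, Finset.image_image, Finset.mem_image]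
    rfl
  let τ : V → V := fun v => brk (N (blk v))
  have hτ : ∀ u ∈ U, τ u ∈ U ∧ τ (τ u) = u ∧ τ u ≠ u := by
    intro u hu
    obtain ⟨b, hbO, rfl⟩ := (hUmem u).1 hu
    obtain ⟨h3, h4, h5⟩ := hNO b hbO
    have e1 : τ (brk b) = brk (N b) := by simp only [τ]; rw [hblkbrk b hbO]
    have e2 : τ (brk (N b)) = brk b := by simp only [τ]; rw [hblkbrk _ h3, h4]
    refine ⟨?_, ?_, ?_⟩
    · rw [e1]; exact (hUmem _).2 ⟨N b, h3, rfl⟩
    · rw [e1, e2]
    · rw [e1]
      intro h6
      apply h5
      rw [← hblkbrk _ h3, h6, hblkbrk b hbO]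
  have hfar : ∀ u ∈ U, ∀ v ∈ U, u ≠ v → ¬ Near G 8 u v := by
    intro u hu v hv huv hnear
    obtain ⟨b, hbO, rfl⟩ := (hUmem u).1 hu
    obtain ⟨b', hbO', rfl⟩ := (hUmem v).1 hv
    have hbb : b ≠ b' := fun h => huv (by rw [h])
    have h3 : ∀ c ∈ O, Near G 1 (s c) (brk c) := by
      intro c hcO
      rcases hbrk c hcO with h4 | h4
      · rw [h4]; exact near_mono G 0 1 (by norm_num) _ _ rfl
      · rw [h4]; exact hstep _
    apply hs2 b b' (hOblk b hbO) (hOblk b' hbO') hbb
    have h4 := near_trans G 1 8 _ _ _ (h3 b hbO) hnear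
    exact near_trans G 9 1 _ _ _ h4 (near_symm G 1 _ _ (h3 b' hbO'))
  have h3cut : ∀ X : Finset V, X.Nonempty → Xᶜ.Nonempty → (G.cut X).Nonempty := by
    intro X h3 h4
    rw [← Finset.card_pos]
    have := three_le_cut G hc k (by omega) hG X h3 h4
    omega
  apply pair_of_conn G hc F hF h3cut U B hBF hdeg τ hτ
  apply criterion G hc F hF U τ hτ hfar
  intro X hX
  have key : sep U τ X ≤ (R ∩ Zs blk a b X).card := by
    -- block-closed version of `X`
    set Y : Finset V := univ.filter (fun b => (b ∈ O ∧ brk b ∈ X) ∨ (b ∉ O ∧ b ∈ X)) with hY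
    have h5 := hN2 Y
    have h6 : sep U τ X ≤ ((univ.filter (fun i => Odd ((R.filter (fun e => blk (G'.t e) = i)).card +
        (R.filter (fun e => blk (G'.h e) = i)).card))).filter (fun i => i ∈ Y ∧ N i ∉ Y)).card := by
      unfold sep
      apply Finset.card_le_card_of_injOn blk
      · intro u hu
        simp only [Finset.coe_filter, Set.mem_setOf_eq] at hu
        obtain ⟨hu1, hu2, hu3⟩ := hu
        obtain ⟨b, hbO, rfl⟩ := (hUmem u).1 hu1
        have hNb := hNO b hbO
        have e1 : τ (brk b) = brk (N b) := by simp only [τ]; rw [hblkbrk b hbO]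
        rw [e1] at hu3
        simp only [Finset.coe_filter, Set.mem_setOf_eq, Finset.mem_filter, Finset.mem_univ,
          true_and]
        rw [hblkbrk b hbO]
        refine ⟨(hOmem b).1 hbO, ?_, ?_⟩
        · rw [hY, Finset.mem_filter]
          exact ⟨Finset.mem_univ _, Or.inl ⟨hbO, hu2⟩⟩
        · rw [hY, Finset.mem_filter]
          rintro ⟨_, h7 | h7⟩
          · exact hu3 h7.2
          · exact h7.1 hNb.1
      · intro u hu v hv huv
        simp only [Finset.coe_filter, Set.mem_setOf_eq] at hu hv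
        obtain ⟨b, hbO, h7⟩ := (hUmem u).1 hu.1
        obtain ⟨b', hbO', h8⟩ := (hUmem v).1 hv.1
        rw [← h7, ← h8, hblkbrk b hbO, hblkbrk b' hbO'] at huv
        rw [← h7, ← h8, huv]
    refine h6.trans (h5.trans (Finset.card_le_card ?_))
    intro e he
    rw [Finset.mem_filter] at he
    rw [Finset.mem_inter]
    refine ⟨he.1, ?_⟩
    -- uncut blocks
    have hun : ∀ x, ¬ CutBlock blk X (blk x) → (blk x ∈ Y ↔ x ∈ X) := by
      intro x hx
      have h7 : ∀ y, blk y = blk x → (y ∈ X ↔ x ∈ X) := by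
        intro y hy
        constructor
        · intro h8
          by_contra h9
          exact hx ⟨⟨y, hy, h8⟩, ⟨x, rfl, h9⟩⟩
        · intro h8
          by_contra h9
          exact hx ⟨⟨x, rfl, h8⟩, ⟨y, hy, h9⟩⟩
      rw [hY, Finset.mem_filter]
      by_cases h8 : blk x ∈ O
      · have h9 := h7 (brk (blk x)) (hblkbrk _ h8)
        constructor
        · rintro ⟨_, h10 | h10⟩
          · exact h9.1 h10.2
          · exact absurd h8 h10.1
        · intro h10
          exact ⟨Finset.mem_univ _, Or.inl ⟨h8, h9.2 h10⟩⟩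
      · have h9 := h7 (blk x) (hb.1 x)
        constructor
        · rintro ⟨_, h10 | h10⟩
          · exact absurd h10.1 h8
          · exact h9.1 h10.2
        · intro h10
          exact ⟨Finset.mem_univ _, Or.inr ⟨h8, h9.2 h10⟩⟩
    unfold Zs
    rw [Finset.mem_filter]
    refine ⟨Finset.mem_univ _, ?_⟩
    by_contra hcon
    push Not at hcon
    obtain ⟨h7, h8, h9⟩ := hcon
    apply he.2
    rw [hun _ h8, hun _ h9]
    exact h7
  have h7 := hB2 X hX
  have h8 : (R ∩ Zs blk a b X).card ≤ (B0 ∩ Zs blk a b X).card :=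
    Finset.card_le_card (Finset.inter_subset_inter_right hRB)
  omega

end Pool.Agent.H185D
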