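import Pool.Agent.H185D.AsmB

set_option autoImplicit false

namespace Pool.Agent.H185D
open Finset Pool.Agent.H160R2.HF Pool.Agent.H160R2.HF.OrGraph Pool.Agent.H884R2.HFP
open Pool.Agent.H185C

universe u v

variable {V : Type u} {E : Type v} [Fintype V] [Fintype E] [DecidableEq V] [DecidableEq E]

/-- the theorem for a 2-factor without odd circuits -/
theorem main_even (G : OrGraph V E) (hc : G.Cubic) (F : Finset E) (hF : G.IsTwoFactor F)
    (π : Equiv.Perm V) (ε : V → E) (hπ : IsPerm G F π ε) (k : ℕ) (hk : 3 ≤ k)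
    (hG : CycConn G k) (hodd : ¬ Nonempty (OddCyc π)) :
    ∃ φ₂ φ₄ : E → ℤ, G.IsHalfFlowPair φ₂ φ₄ ∧ ∀ e, φ₂ e ≠ 0 ↔ e ∈ F := by
  obtain ⟨B, br, hBF, _, hdeg⟩ := exists_breaks G F π ε hπ ∅ (by simp) (by
    intro v
    have h3 : (univ.filter (fun w => π.SameCycle v w)) = vert π {cls π v} := by
      ext w
      simp only [vert, Finset.mem_filter, Finset.mem_univ, true_and, Finset.mem_singleton]
      rw [cls_eq]
      exact ⟨fun h => h.symm, fun h => h.symm⟩
    rw [h3]
    have h4 : ¬ Odd (csize π (cls π v)) := fun h => hodd ⟨⟨cls π v, h⟩⟩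
    rw [Nat.not_odd_iff_even] at h4
    unfold csize at h4
    simpa using h4)
  refine trivial_case G hc F hF ?_ B hBF (by simpa using hdeg)
  intro X h3 h4
  rw [← Finset.card_pos]
  have := three_le_cut G hc k hk hG X h3 h4
  omega

/-- the main theorem, oddness version -/
theorem main2 : ∃ k₀ : ℕ, ∀ k : ℕ, k₀ ≤ k → ∀ (V : Type u) (E : Type v) [Fintype V] [Fintype E]
    [DecidableEq V] [DecidableEq E] (G : OrGraph V E), G.Cubic → CycConn G k →
    (∃ F : Finset E, G.IsTwoFactor F) ∧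
    ∀ F : Finset E, G.IsTwoFactor F → G.oddCount F ^ 16 ≤ k ^ k →
      ∃ φ₂ φ₄ : E → ℤ, G.IsHalfFlowPair φ₂ φ₄ ∧ ∀ e, φ₂ e ≠ 0 ↔ e ∈ F := by
  obtain ⟨k₀, hk₀⟩ := numeric2
  refine ⟨max k₀ LL, ?_⟩
  intro k hk V E _ _ _ _ G hc hG
  have hLL : 3 ≤ LL := by unfold LL; norm_num
  have hk1 : k₀ ≤ k := (le_max_left _ _).trans hk
  have hk2 : LL ≤ k := (le_max_right _ _).trans hk
  constructor
  · apply petersen G hc
    intro X h3 h4
    have := three_le_cut G hc k (by omega) hG X h3 h4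
    omega
  · intro F hF hw
    obtain ⟨π, ε, hπ⟩ := exists_perm G F hF
    by_cases hodd : Nonempty (OddCyc π)
    · have h1 := card_oddCyc G F hF π ε hπ
      apply main_multi2 G hc F hF π ε hπ k hk2 hG hodd
      intro q hq
      apply hk₀ k (Nat.card (OddCyc π)) q (Fintype.card E) hk1 _ (by rw [h1]; exact hw) hq
      have := Finite.card_pos (α := OddCyc π)
      omega
    · exact main_even G hc F hF π ε hπ k (by omega) hG hodd

end Pool.Agent.H185D
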