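import Pool.Agent.H185C.Final

/-!
Definitions for the theorem: cyclically `k`-edge-connected cubic graphs have `1/2`-flow-pairs
supported on every 2-factor with `w` odd circuits, `w ^ 16 ≤ k ^ k`.  MP_e59a69_co.
-/

set_option autoImplicit false

namespace Pool.Agent.H185D
open Finset Pool.Agent.H160R2.HF Pool.Agent.H160R2.HF.OrGraph Pool.Agent.H884R2.HFP
open Pool.Agent.H185C

universe u v w

section split
variable {V : Type u} {κ : Type w} [DecidableEq V]

/-- the number of pairs of the multiset `L` separated by `X` -/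
def mcut (L : Multiset (V × V)) (X : Finset V) : ℕ :=
  (L.map (fun q => if (q.1 ∈ X ↔ q.2 ∈ X) then 0 else 1)).sum

/-- `X` is a union of classes of the labelling `lab` -/
def ClosedL (lab : V → κ) (X : Finset V) : Prop := ∀ u v, lab u = lab v → (u ∈ X ↔ v ∈ X)

/-- `X` separates two vertices with labels in `S` -/
def SepT (lab : V → κ) (S : Set κ) (X : Finset V) : Prop :=
  (∃ u, lab u ∈ S ∧ u ∈ X) ∧ ∃ v, lab v ∈ S ∧ v ∉ X

/-- `X` cuts no class with label outside `S` -/
def CutsOnly (lab : V → κ) (S : Set κ) (X : Finset V) : Prop :=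
  ∀ u v, lab u = lab v → lab u ∉ S → (u ∈ X ↔ v ∈ X)

end split

section graph
variable {V : Type u} {E : Type v} [Fintype V] [Fintype E] [DecidableEq V] [DecidableEq E]

/-- the number of vertices of a cycle of `π` -/
noncomputable def csize (π : Equiv.Perm V) (c : Cyc π) : ℕ := (vert π {c}).card

/-- the odd cycles of `π` -/
abbrev OddCyc (π : Equiv.Perm V) : Type u := {c : Cyc π // Odd (csize π c)}

/-- every edge of `G` twice, as a multiset of pairs -/
def twice (G : OrGraph V E) : Multiset (V × V) :=
  (univ : Finset E).val.map (fun e => (G.t e, G.h e)) +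
    (univ : Finset E).val.map (fun e => (G.t e, G.h e))

/-- a family of links: pairs `a i`, `b i` of vertices on distinct odd cycles `a' i`, `b' i`,
such that a set `X` separates at most `2 |δ(X)|` links -/
structure Links (G : OrGraph V E) (π : Equiv.Perm V) {m : ℕ} (a b : Fin m → V)
    (a' b' : Fin m → OddCyc π) : Prop where
  ha : ∀ i, (a' i).1 = cls π (a i)
  hb : ∀ i, (b' i).1 = cls π (b i)
  hne : ∀ i, a' i ≠ b' i
  hcut : ∀ X : Finset V, (univ.filter (fun i => ¬ (a i ∈ X ↔ b i ∈ X))).card ≤ 2 * (G.cut X).card

/-- the links separated by `X` or with an end in a block cut by `X` -/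
noncomputable def Zs {m : ℕ} (blk : V → V) (a b : Fin m → V) (X : Finset V) : Finset (Fin m) :=
  letI := Classical.decPred (CutBlock blk X)
  univ.filter (fun i => ¬ (a i ∈ X ↔ b i ∈ X) ∨ CutBlock blk X (blk (a i)) ∨
    CutBlock blk X (blk (b i)))

/-- the vertices in blocks containing an end of a link -/
def PP {m : ℕ} (blk : V → V) (a b : Fin m → V) : Finset V :=
  univ.filter (fun v => ∃ i, blk v = blk (a i) ∨ blk v = blk (b i))

end graph

end Pool.Agent.H185D
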