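import Mathlib

/-!
Sparse certificates (task S3, helper287): a multigraph in which every cut has at least `K` edges
has a subgraph with at most `K n` edges and the same property.
-/

set_option autoImplicit false
set_option linter.unusedSectionVars false

namespace Pool.Agent.H185D
open Finset

universe u v

namespace Sparse

variable {ι : Type u} {α : Type v} [Fintype ι] [DecidableEq ι] [DecidableEq α]

/-- the vector of an edge -/
def ve (a b : α → ι) (e : α) : ι → ZMod 2 := Pi.single (a e) 1 + Pi.single (b e) 1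

theorem sum_ve (a b : α → ι) (Y : Finset ι) (e : α) :
    ∑ y ∈ Y, ve a b e y = (if a e ∈ Y then 1 else 0) + (if b e ∈ Y then 1 else 0) := by
  unfold ve
  simp only [Pi.add_apply, Pi.single_apply]
  rw [sum_add_distrib, sum_ite_eq', sum_ite_eq']

theorem sum_ve_eq_zero_iff (a b : α → ι) (Y : Finset ι) (e : α) :
    ∑ y ∈ Y, ve a b e y = 0 ↔ (a e ∈ Y ↔ b e ∈ Y) := by
  rw [sum_ve]
  by_cases h1 : a e ∈ Y <;> by_cases h2 : b e ∈ Y <;> simp [h1, h2]
  decide

/-- the linear functional -/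
def fn (Y : Finset ι) : (ι → ZMod 2) →ₗ[ZMod 2] ZMod 2 where
  toFun x := ∑ y ∈ Y, x y
  map_add' x y := by simp only [Pi.add_apply, sum_add_distrib]
  map_smul' c x := by simp only [Pi.smul_apply, smul_eq_mul, mul_sum, RingHom.id_apply]

theorem fn_apply (Y : Finset ι) (x : ι → ZMod 2) : fn Y x = ∑ y ∈ Y, x y := rfl

theorem base (a b : α → ι) (A : Finset α) : ∃ B ⊆ A, B.card ≤ Fintype.card ι ∧
    ∀ Y : Finset ι, (A.filter (fun e => ¬ (a e ∈ Y ↔ b e ∈ Y))).Nonempty →
      (B.filter (fun e => ¬ (a e ∈ Y ↔ b e ∈ Y))).Nonempty := by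
  obtain ⟨B, hBA, -, hspan, hlin⟩ := exists_linearIndepOn_extension (K := ZMod 2) (v := ve a b)
    (s := ∅) (t := (A : Set α)) (linearIndepOn_empty _ _) (Set.empty_subset _)
  have hfin : B.Finite := A.finite_toSet.subset hBA
  refine ⟨hfin.toFinset, ?_, ?_, ?_⟩
  · intro e he
    rw [Set.Finite.mem_toFinset] at he
    exact_mod_cast hBA he
  · have := hfin.fintype
    have h1 := hlin.linearIndependent.fintype_card_le_finrank
    rw [Module.finrank_fintype_fun_eq_card] at h1
    rw [hfin.card_toFinset]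
    exact h1
  · intro Y hY
    by_contra hno
    rw [not_nonempty_iff_eq_empty, filter_eq_empty_iff] at hno
    obtain ⟨e0, he0⟩ := hY
    rw [mem_filter] at he0
    apply he0.2
    rw [← sum_ve_eq_zero_iff, ← fn_apply]
    have h1 : ve a b e0 ∈ Submodule.span (ZMod 2) (ve a b '' B) :=
      hspan ⟨e0, by exact_mod_cast he0.1, rfl⟩
    have h2 : Submodule.span (ZMod 2) (ve a b '' B) ≤ LinearMap.ker (fn Y) := by
      rw [Submodule.span_le]
      rintro _ ⟨e, he, rfl⟩
      rw [SetLike.mem_coe, LinearMap.mem_ker, fn_apply, sum_ve_eq_zero_iff]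
      have h3 := hno ((Set.Finite.mem_toFinset hfin).2 he)
      rwa [not_not] at h3
    exact LinearMap.mem_ker.1 (h2 h1)

theorem main (a b : α → ι) : ∀ (K : ℕ) (A : Finset α), ∃ A' ⊆ A, A'.card ≤ K * Fintype.card ι ∧
    ∀ Y : Finset ι, min K (A.filter (fun e => ¬ (a e ∈ Y ↔ b e ∈ Y))).card ≤
      (A'.filter (fun e => ¬ (a e ∈ Y ↔ b e ∈ Y))).card := by
  intro K
  induction K with
  | zero =>
    intro A
    exact ⟨∅, empty_subset _, by simp, fun Y => by simp⟩
  | succ K ih =>
    intro A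
    obtain ⟨B, hBA, hBc, hB⟩ := base a b A
    obtain ⟨A', hA'A, hA'c, hA'⟩ := ih (A \ B)
    have hdisj : Disjoint B A' :=
      disjoint_of_subset_right hA'A disjoint_sdiff
    refine ⟨B ∪ A', union_subset hBA (hA'A.trans sdiff_subset), ?_, fun Y => ?_⟩
    · rw [card_union_of_disjoint hdisj, add_mul, one_mul]
      omega
    · have h1 := hA' Y
      have h2 := hB Y
      rw [← card_pos, ← card_pos] at h2
      have h3 : (A.filter (fun e => ¬ (a e ∈ Y ↔ b e ∈ Y))).card =
          (B.filter (fun e => ¬ (a e ∈ Y ↔ b e ∈ Y))).card +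
          ((A \ B).filter (fun e => ¬ (a e ∈ Y ↔ b e ∈ Y))).card := by
        rw [← card_union_of_disjoint (disjoint_filter_filter disjoint_sdiff), ← filter_union,
          union_sdiff_of_subset hBA]
      have h4 : ((B ∪ A').filter (fun e => ¬ (a e ∈ Y ↔ b e ∈ Y))).card =
          (B.filter (fun e => ¬ (a e ∈ Y ↔ b e ∈ Y))).card +
          (A'.filter (fun e => ¬ (a e ∈ Y ↔ b e ∈ Y))).card := by
        rw [filter_union, card_union_of_disjoint (disjoint_filter_filter hdisj)]
      rw [h3] at h2 ⊢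
      rw [h4]
      omega

end Sparse

theorem sparse {ι : Type u} {α : Type v} [Fintype ι] [DecidableEq ι] [DecidableEq α]
    (a b : α → ι) (K : ℕ) (A : Finset α)
    (h : ∀ Y : Finset ι, (∃ y, y ∈ Y) → (∃ y, y ∉ Y) →
      K ≤ (A.filter (fun e => ¬ (a e ∈ Y ↔ b e ∈ Y))).card) :
    ∃ A' ⊆ A, A'.card ≤ K * Fintype.card ι ∧
      ∀ Y : Finset ι, (∃ y, y ∈ Y) → (∃ y, y ∉ Y) →
        K ≤ (A'.filter (fun e => ¬ (a e ∈ Y ↔ b e ∈ Y))).card := by
  obtain ⟨A', h1, h2, h3⟩ := Sparse.main a b K A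
  refine ⟨A', h1, h2, fun Y hY hY' => ?_⟩
  have h4 := h Y hY hY'
  have h5 := h3 Y
  omega

end Pool.Agent.H185D
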