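import Pool.Agent.H185D.Defs
import Pool.Agent.H185D.Sparse

/-!
S4: existence of the links, from the statement of S2 (complete splitting).
-/

set_option autoImplicit false

namespace Pool.Agent.H185D
open Finset Pool.Agent.H160R2.HF Pool.Agent.H160R2.HF.OrGraph Pool.Agent.H884R2.HFP
open Pool.Agent.H185C

universe u v w

namespace S4

theorem mcut_list {V : Type u} [DecidableEq V] (l : List (V × V)) (X : Finset V) :
    mcut (l : Multiset (V × V)) X =
      (univ.filter (fun i : Fin l.length => ¬ ((l[i.1]).1 ∈ X ↔ (l[i.1]).2 ∈ X))).card := by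
  unfold mcut
  rw [Multiset.map_coe, Multiset.sum_coe, ← Fin.sum_univ_fun_getElem, Finset.card_filter]
  refine Finset.sum_congr rfl fun i _ => ?_
  by_cases h : ((l[i.1]).1 ∈ X ↔ (l[i.1]).2 ∈ X)
  · rw [if_pos h, if_neg (not_not.2 h)]
  · rw [if_neg h, if_pos h]

section graph
variable {V : Type u} {E : Type v} [Fintype V] [Fintype E] [DecidableEq V] [DecidableEq E]

theorem mcut_twice (G : OrGraph V E) (X : Finset V) : mcut (twice G) X = 2 * (G.cut X).card := by
  have h : (((univ : Finset E).val.map (fun e => (G.t e, G.h e))).map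
      (fun q : V × V => if (q.1 ∈ X ↔ q.2 ∈ X) then 0 else 1)).sum = (G.cut X).card := by
    rw [Multiset.map_map]
    unfold cut
    rw [Finset.card_filter]
    show ∑ e : E, _ = _
    refine Finset.sum_congr rfl fun e _ => ?_
    simp only [Function.comp]
    by_cases h : (G.t e ∈ X ↔ G.h e ∈ X)
    · rw [if_pos h, if_neg (not_not.2 h)]
    · rw [if_neg h, if_pos h]
  unfold mcut twice
  rw [Multiset.map_add, Multiset.sum_add, h]
  ring

theorem cyc_mono (G : OrGraph V E) {X Y : Finset V} (h : X ⊆ Y) (hX : G.HasCycleIn X) :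
    G.HasCycleIn Y := by
  obtain ⟨C, h1, h2, h3⟩ := hX
  exact ⟨C, h1, fun e he => ⟨h (h2 e he).1, h (h2 e he).2⟩, h3⟩

open Classical in
/-- the labelling: odd cycles are contracted, the other vertices are single -/
noncomputable def lab (π : Equiv.Perm V) (v : V) : Cyc π ⊕ V :=
  if Odd (csize π (cls π v)) then Sum.inl (cls π v) else Sum.inr v

/-- the labels of the odd cycles -/
def SS (π : Equiv.Perm V) : Set (Cyc π ⊕ V) := {x | ∃ c, x = Sum.inl c}

theorem lab_mem (π : Equiv.Perm V) (v : V) : lab π v ∈ SS π ↔ Odd (csize π (cls π v)) := by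
  classical
  unfold lab SS
  by_cases h : Odd (csize π (cls π v))
  · simp [h]
  · simp [h]

theorem lab_odd (π : Equiv.Perm V) {v : V} (h : Odd (csize π (cls π v))) :
    lab π v = Sum.inl (cls π v) := by
  unfold lab; rw [if_pos h]

theorem lab_even (π : Equiv.Perm V) {v : V} (h : ¬ Odd (csize π (cls π v))) :
    lab π v = Sum.inr v := by
  unfold lab; rw [if_neg h]

theorem lab_cls (π : Equiv.Perm V) {u v : V} (h : lab π u = lab π v) : cls π u = cls π v := by
  by_cases hu : Odd (csize π (cls π u)) <;> by_cases hv : Odd (csize π (cls π v))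
  · rw [lab_odd π hu, lab_odd π hv] at h
    exact Sum.inl.inj h
  · rw [lab_odd π hu, lab_even π hv] at h
    exact absurd h (by simp)
  · rw [lab_even π hu, lab_odd π hv] at h
    exact absurd h (by simp)
  · rw [lab_even π hu, lab_even π hv] at h
    rw [Sum.inr.inj h]

theorem le_cut (G : OrGraph V E) (F : Finset E) (hF : G.IsTwoFactor F)
    (π : Equiv.Perm V) (ε : V → E) (hπ : IsPerm G F π ε) (k : ℕ) (hG : CycConn G k)
    (X : Finset V) (hX : ClosedL (lab π) X) (hs : SepT (lab π) (SS π) X) :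
    2 * k ≤ mcut (twice G) X := by
  classical
  rw [mcut_twice]
  obtain ⟨⟨u, hu, huX⟩, v, hv, hvX⟩ := hs
  rw [lab_mem] at hu hv
  have key : ∀ w : V, Odd (csize π (cls π w)) → ∀ x ∈ vert π {cls π w}, (x ∈ X ↔ w ∈ X) := by
    intro w hw x hx
    simp only [vert, Finset.mem_filter, Finset.mem_univ, true_and, Finset.mem_singleton] at hx
    apply hX
    rw [lab_odd π hw, lab_odd π (by rw [hx]; exact hw), hx]
  have cyc : ∀ w : V, G.HasCycleIn (vert π {cls π w}) := fun w =>
    G.hasCycleIn_of_cut F hF _ (vert_cutF G F π ε hπ _)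
      (vert_nonempty π _ (Finset.singleton_nonempty _))
  have h1 : G.HasCycleIn X :=
    cyc_mono G (fun x hx => (key u hu x hx).2 huX) (cyc u)
  have h2 : G.HasCycleIn Xᶜ := by
    refine cyc_mono G (fun x hx => ?_) (cyc v)
    rw [Finset.mem_compl]
    exact fun h => hvX ((key v hv x hx).1 h)
  have := hG X h1 h2
  omega

end graph

end S4

section graph
variable {V : Type u} {E : Type v} [Fintype V] [Fintype E] [DecidableEq V] [DecidableEq E]

theorem exists_links_of
    (split_off : ∀ {V : Type u} {κ : Type u} [Fintype V] [DecidableEq V] [DecidableEq κ]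
      (lab : V → κ) (S : Set κ) (K : ℕ) (_ : Even K) (L : Multiset (V × V))
      (_ : ∀ X : Finset V, ClosedL lab X → Even (mcut L X))
      (_ : ∀ X : Finset V, ClosedL lab X → SepT lab S X → K ≤ mcut L X),
      ∃ L₁ : Multiset (V × V),
        (∀ q ∈ L₁, lab q.1 ∈ S ∧ lab q.2 ∈ S ∧ lab q.1 ≠ lab q.2) ∧
        (∀ X : Finset V, ClosedL lab X → SepT lab S X → K ≤ mcut L₁ X) ∧
        (∀ X : Finset V, CutsOnly lab S X → mcut L₁ X ≤ mcut L X))
    (G : OrGraph V E) (F : Finset E) (hF : G.IsTwoFactor F)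
    (π : Equiv.Perm V) (ε : V → E) (hπ : IsPerm G F π ε) (k : ℕ) (hG : CycConn G k)
    [Fintype (OddCyc π)] [DecidableEq (OddCyc π)] :
    ∃ (m : ℕ) (a b : Fin m → V) (a' b' : Fin m → OddCyc π), Links G π a b a' b' ∧
      m ≤ 2 * k * Fintype.card (OddCyc π) ∧
      ∀ Y : Finset (OddCyc π), (∃ y, y ∈ Y) → (∃ y, y ∉ Y) →
        2 * k ≤ (univ.filter (fun i => ¬ (a' i ∈ Y ↔ b' i ∈ Y))).card := by
  classical
  obtain ⟨L₁, h1, h2, h3⟩ := split_off (S4.lab π) (S4.SS π) (2 * k) (even_two_mul k) (twice G)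
    (fun X _ => by rw [S4.mcut_twice]; exact even_two_mul _)
    (fun X hX hs => S4.le_cut G F hF π ε hπ k hG X hX hs)
  obtain ⟨l, hl⟩ : ∃ l : List (V × V), (l : Multiset (V × V)) = L₁ :=
    ⟨L₁.toList, L₁.coe_toList⟩
  subst hl
  have hmem : ∀ i : Fin l.length, l[i.1] ∈ (l : Multiset (V × V)) := fun i =>
    Multiset.mem_coe.2 (List.getElem_mem i.2)
  have hodd1 : ∀ i : Fin l.length, Odd (csize π (cls π (l[i.1]).1)) := fun i =>
    (S4.lab_mem π _).1 (h1 _ (hmem i)).1
  have hodd2 : ∀ i : Fin l.length, Odd (csize π (cls π (l[i.1]).2)) := fun i =>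
    (S4.lab_mem π _).1 (h1 _ (hmem i)).2.1
  set a0 : Fin l.length → OddCyc π := fun i => ⟨cls π (l[i.1]).1, hodd1 i⟩ with ha0
  set b0 : Fin l.length → OddCyc π := fun i => ⟨cls π (l[i.1]).2, hodd2 i⟩ with hb0
  have hne0 : ∀ i, a0 i ≠ b0 i := by
    intro i h
    apply (h1 _ (hmem i)).2.2
    rw [S4.lab_odd π (hodd1 i), S4.lab_odd π (hodd2 i)]
    exact congrArg Sum.inl (congrArg Subtype.val h)
  have hcut : ∀ Y : Finset (OddCyc π), (∃ y, y ∈ Y) → (∃ y, y ∉ Y) →
      2 * k ≤ ((univ : Finset (Fin l.length)).filter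
        (fun i => ¬ (a0 i ∈ Y ↔ b0 i ∈ Y))).card := by
    rintro Y ⟨y, hy⟩ ⟨y', hy'⟩
    set X : Finset V := univ.filter (fun v => ∃ z ∈ Y, z.1 = cls π v) with hX
    have hmX : ∀ v, v ∈ X ↔ ∃ z ∈ Y, z.1 = cls π v := by
      intro v
      rw [hX, Finset.mem_filter]
      simp
    have hcl : ClosedL (S4.lab π) X := by
      intro p q hpq
      rw [hmX, hmX, S4.lab_cls π hpq]
    have hsep : SepT (S4.lab π) (S4.SS π) X := by
      constructor
      · obtain ⟨v, hv⟩ := Quotient.exists_rep y.1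
        have hv' : cls π v = y.1 := hv
        refine ⟨v, (S4.lab_mem π v).2 ?_, (hmX v).2 ⟨y, hy, hv'.symm⟩⟩
        rw [hv']
        exact y.2
      · obtain ⟨v, hv⟩ := Quotient.exists_rep y'.1
        have hv' : cls π v = y'.1 := hv
        refine ⟨v, (S4.lab_mem π v).2 ?_, ?_⟩
        · rw [hv']
          exact y'.2
        · rw [hmX]
          rintro ⟨z, hz, hzv⟩
          have : z = y' := Subtype.ext (hzv.trans hv')
          exact hy' (this ▸ hz)
    have h4 := h2 X hcl hsep
    have h5 : mcut (l : Multiset (V × V)) X = _ := S4.mcut_list l X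
    rw [h5] at h4
    refine h4.trans (le_of_eq ?_)
    congr 1
    refine Finset.filter_congr fun i _ => ?_
    have e1 : (l[i.1]).1 ∈ X ↔ a0 i ∈ Y := by
      rw [hmX]
      constructor
      · rintro ⟨z, hz, hzv⟩
        have : z = a0 i := Subtype.ext hzv
        exact this ▸ hz
      · intro h
        exact ⟨a0 i, h, rfl⟩
    have e2 : (l[i.1]).2 ∈ X ↔ b0 i ∈ Y := by
      rw [hmX]
      constructor
      · rintro ⟨z, hz, hzv⟩
        have : z = b0 i := Subtype.ext hzv
        exact this ▸ hz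
      · intro h
        exact ⟨b0 i, h, rfl⟩
    rw [e1, e2]
  obtain ⟨A', -, hA1, hA2⟩ := sparse a0 b0 (2 * k) univ hcut
  set f : Fin A'.card → Fin l.length := fun i => (A'.equivFin.symm i).1 with hf
  have hfinj : Function.Injective f := by
    intro i j hij
    exact A'.equivFin.symm.injective (Subtype.ext hij)
  have hfmem : ∀ i, f i ∈ A' := fun i => (A'.equivFin.symm i).2
  have hfsurj : ∀ x ∈ A', ∃ i, f i = x := by
    intro x hx
    exact ⟨A'.equivFin ⟨x, hx⟩, by simp [hf]⟩
  refine ⟨A'.card, fun i => (l[(f i).1]).1, fun i => (l[(f i).1]).2, fun i => a0 (f i),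
    fun i => b0 (f i), ⟨fun i => rfl, fun i => rfl, fun i => hne0 _, ?_⟩, hA1, ?_⟩
  · intro X
    have h4 : ((univ : Finset (Fin A'.card)).filter
        (fun i => ¬ ((l[(f i).1]).1 ∈ X ↔ (l[(f i).1]).2 ∈ X))).card ≤
        (univ.filter (fun i : Fin l.length => ¬ ((l[i.1]).1 ∈ X ↔ (l[i.1]).2 ∈ X))).card := by
      refine Finset.card_le_card_of_injOn f ?_ hfinj.injOn
      intro i hi
      have hi' := (Finset.mem_filter.1 hi).2
      exact Finset.mem_filter.2 ⟨Finset.mem_univ _, hi'⟩
    have h5 : mcut (l : Multiset (V × V)) X = _ := S4.mcut_list l X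
    rw [← h5] at h4
    refine h4.trans ((h3 X ?_).trans (le_of_eq (S4.mcut_twice G X)))
    intro p q hpq hp
    have hp' : ¬ Odd (csize π (cls π p)) := fun h => hp ((S4.lab_mem π p).2 h)
    have hq' : ¬ Odd (csize π (cls π q)) := by
      rw [← S4.lab_cls π hpq]
      exact hp'
    rw [S4.lab_even π hp', S4.lab_even π hq'] at hpq
    rw [Sum.inr.inj hpq]
  · intro Y hY hY'
    refine (hA2 Y hY hY').trans ?_
    have : A'.filter (fun e => ¬ (a0 e ∈ Y ↔ b0 e ∈ Y)) ⊆
        ((univ : Finset (Fin A'.card)).filter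
          (fun i => ¬ (a0 (f i) ∈ Y ↔ b0 (f i) ∈ Y))).image f := by
      intro x hx
      rw [Finset.mem_filter] at hx
      obtain ⟨i, hi⟩ := hfsurj x hx.1
      rw [Finset.mem_image]
      refine ⟨i, ?_, hi⟩
      rw [Finset.mem_filter, hi]
      exact ⟨Finset.mem_univ _, hx.2⟩
    exact (Finset.card_le_card this).trans Finset.card_image_le

end graph

end Pool.Agent.H185D
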