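import Pool.Agent.H185D.Defs

/-!
S2: complete splitting.
-/

set_option autoImplicit false

namespace Pool.Agent.H185D
open Finset Pool.Agent.H160R2.HF Pool.Agent.H160R2.HF.OrGraph Pool.Agent.H884R2.HFP
open Pool.Agent.H185C

universe u v w

section split
variable {V : Type u} {κ : Type w} [Fintype V] [DecidableEq V] [DecidableEq κ]

omit [Fintype V] in
theorem mcut_erase_add (L : Multiset (V × V)) (q : V × V) (hq : q ∈ L) (X : Finset V) :
    mcut (L.erase q) X + (if (q.1 ∈ X ↔ q.2 ∈ X) then 0 else 1) = mcut L X := by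
  unfold mcut
  conv_rhs => rw [← Multiset.cons_erase hq]
  rw [Multiset.map_cons, Multiset.sum_cons, add_comm]

omit [Fintype V] [DecidableEq κ] in
/-- Complete splitting, from the statement `split_step`. -/
theorem split_off_of (lab : V → κ) (S : Set κ) (K : ℕ)
    (hstep : ∀ L : Multiset (V × V),
      (∀ q ∈ L, lab q.1 ≠ lab q.2) →
      (∀ X : Finset V, ClosedL lab X → Even (mcut L X)) →
      (∀ X : Finset V, ClosedL lab X → SepT lab S X → K ≤ mcut L X) →
      (∃ q ∈ L, lab q.1 ∉ S ∨ lab q.2 ∉ S) →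
      ∃ L₁ : Multiset (V × V), L₁.card < L.card ∧
        (∀ X : Finset V, ClosedL lab X → Even (mcut L₁ X)) ∧
        (∀ X : Finset V, ClosedL lab X → SepT lab S X → K ≤ mcut L₁ X) ∧
        (∀ X : Finset V, CutsOnly lab S X → mcut L₁ X ≤ mcut L X))
    (L : Multiset (V × V))
    (hev : ∀ X : Finset V, ClosedL lab X → Even (mcut L X))
    (hcon : ∀ X : Finset V, ClosedL lab X → SepT lab S X → K ≤ mcut L X) :
    ∃ L₁ : Multiset (V × V),
      (∀ q ∈ L₁, lab q.1 ∈ S ∧ lab q.2 ∈ S ∧ lab q.1 ≠ lab q.2) ∧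
      (∀ X : Finset V, ClosedL lab X → SepT lab S X → K ≤ mcut L₁ X) ∧
      (∀ X : Finset V, CutsOnly lab S X → mcut L₁ X ≤ mcut L X) := by
  classical
  induction hn : L.card using Nat.strong_induction_on generalizing L with
  | _ n ih =>
    by_cases h1 : ∃ q ∈ L, lab q.1 = lab q.2
    · obtain ⟨q, hq, hlab⟩ := h1
      have hcl : ∀ X : Finset V, ClosedL lab X → mcut (L.erase q) X = mcut L X := by
        intro X hX
        have h2 := mcut_erase_add L q hq X
        rw [if_pos (hX q.1 q.2 hlab), add_zero] at h2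
        exact h2
      obtain ⟨L₁, h3, h4, h5⟩ := ih (L.erase q).card (by
        rw [← hn]
        exact Multiset.card_erase_lt_of_mem hq) (L.erase q)
        (fun X hX => by rw [hcl X hX]; exact hev X hX)
        (fun X hX hs => by rw [hcl X hX]; exact hcon X hX hs) rfl
      refine ⟨L₁, h3, h4, fun X hX => (h5 X hX).trans ?_⟩
      have h2 := mcut_erase_add L q hq X
      omega
    · push Not at h1
      by_cases h2 : ∃ q ∈ L, lab q.1 ∉ S ∨ lab q.2 ∉ S
      · obtain ⟨L₁, h3, h4, h5, h6⟩ := hstep L h1 hev hcon h2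
        obtain ⟨L₂, g1, g2, g3⟩ := ih L₁.card (by rw [← hn]; exact h3) L₁ h4 h5 rfl
        exact ⟨L₂, g1, g2, fun X hX => (g3 X hX).trans (h6 X hX)⟩
      · push Not at h2
        exact ⟨L, fun q hq => ⟨(h2 q hq).1, (h2 q hq).2, h1 q hq⟩, hcon,
          fun X _ => le_refl _⟩

end split

end Pool.Agent.H185D
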