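import Pool.Agent.H185D.Defs

/-!
# S1: one Eulerian splitting step
-/

set_option autoImplicit false

namespace Pool.Agent.H185D
open Finset Pool.Agent.H160R2.HF Pool.Agent.H160R2.HF.OrGraph Pool.Agent.H884R2.HFP
open Pool.Agent.H185C

universe u v w

namespace SplitStep
variable {V : Type u} {κ : Type w} [DecidableEq V]

/-- indicator of separation -/
def sp (q : V × V) (X : Finset V) : ℕ := if (q.1 ∈ X ↔ q.2 ∈ X) then 0 else 1

theorem mcut_cons (q : V × V) (L : Multiset (V × V)) (X : Finset V) :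
    mcut (q ::ₘ L) X = sp q X + mcut L X := by
  unfold mcut sp
  rw [Multiset.map_cons, Multiset.sum_cons]

theorem mcut_two_le (L : Multiset (V × V)) (A B C D : Finset V)
    (h : ∀ q ∈ L, sp q A + sp q B ≤ sp q C + sp q D) :
    mcut L A + mcut L B ≤ mcut L C + mcut L D := by
  induction L using Multiset.induction_on with
  | empty => simp [mcut]
  | cons q L ih =>
    rw [mcut_cons, mcut_cons, mcut_cons, mcut_cons]
    have h1 := h q (Multiset.mem_cons_self q L)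
    have h2 := ih fun q' hq' => h q' (Multiset.mem_cons_of_mem hq')
    omega

theorem mcut_le (L : Multiset (V × V)) (A B : Finset V)
    (h : ∀ q ∈ L, sp q A ≤ sp q B) : mcut L A ≤ mcut L B := by
  have h1 := mcut_two_le L A A B B (fun q hq => by have := h q hq; omega)
  omega

theorem sp_union_inter (q : V × V) (X Y : Finset V) :
    sp q (X ∩ Y) + sp q (X ∪ Y) ≤ sp q X + sp q Y := by
  unfold sp
  simp only [Finset.mem_union, Finset.mem_inter]
  by_cases h1 : q.1 ∈ X <;> by_cases h2 : q.1 ∈ Y <;> by_cases h3 : q.2 ∈ X <;>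
    by_cases h4 : q.2 ∈ Y <;> simp [h1, h2, h3, h4]

theorem sp_sdiff (q : V × V) (X Y : Finset V) :
    sp q (X \ Y) + sp q (Y \ X) ≤ sp q X + sp q Y := by
  unfold sp
  simp only [Finset.mem_sdiff]
  by_cases h1 : q.1 ∈ X <;> by_cases h2 : q.1 ∈ Y <;> by_cases h3 : q.2 ∈ X <;>
    by_cases h4 : q.2 ∈ Y <;> simp [h1, h2, h3, h4]

theorem sp_sdiff_two (u y : V) (X Y : Finset V) (h1 : y ∈ X) (h2 : y ∈ Y) (h3 : u ∉ X)
    (h4 : u ∉ Y) : sp (u, y) (X \ Y) + sp (u, y) (Y \ X) + 2 ≤ sp (u, y) X + sp (u, y) Y := by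
  unfold sp
  simp [h1, h2, h3, h4]

theorem tri (u₁ y₁ u₂ y₂ : V) (X : Finset V) (h : u₁ ∈ X ↔ u₂ ∈ X) :
    sp (u₁, y₁) X + sp (u₂, y₂) X = sp (y₁, y₂) X ∨
      (sp (u₁, y₁) X + sp (u₂, y₂) X = sp (y₁, y₂) X + 2 ∧ ¬ (u₁ ∈ X ↔ y₁ ∈ X) ∧
        (y₁ ∈ X ↔ y₂ ∈ X)) := by
  unfold sp
  simp only [← h]
  by_cases h1 : u₁ ∈ X <;> by_cases h2 : y₁ ∈ X <;> by_cases h3 : y₂ ∈ X <;> simp [h1, h2, h3]

theorem sp_swap (u y : V) (X : Finset V) : sp (u, y) X = sp (y, u) X := by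
  unfold sp
  simp only [iff_comm]

theorem orient (lab : V → κ) (z : κ) (q : V × V) (h : lab q.1 ≠ lab q.2)
    (hz : lab q.1 = z ∨ lab q.2 = z) :
    ∃ u y, lab u = z ∧ lab y ≠ z ∧ ∀ X : Finset V, sp q X = sp (u, y) X := by
  rcases hz with hz | hz
  · exact ⟨q.1, q.2, hz, fun h' => h (hz.trans h'.symm), fun X => rfl⟩
  · exact ⟨q.2, q.1, hz, fun h' => h (h'.trans hz.symm), fun X => sp_swap _ _ _⟩

variable [Fintype V]
set_option linter.unusedSectionVars false

theorem mcut_compl (L : Multiset (V × V)) (X : Finset V) : mcut L Xᶜ = mcut L X := by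
  unfold mcut
  congr 1
  refine Multiset.map_congr rfl fun q _ => ?_
  simp only [Finset.mem_compl, not_iff_not]

theorem ClosedL.union {lab : V → κ} {X Y : Finset V} (hX : ClosedL lab X) (hY : ClosedL lab Y) :
    ClosedL lab (X ∪ Y) := fun a b h => by
  rw [Finset.mem_union, Finset.mem_union, hX a b h, hY a b h]

theorem ClosedL.inter {lab : V → κ} {X Y : Finset V} (hX : ClosedL lab X) (hY : ClosedL lab Y) :
    ClosedL lab (X ∩ Y) := fun a b h => by
  rw [Finset.mem_inter, Finset.mem_inter, hX a b h, hY a b h]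

theorem ClosedL.sdiff {lab : V → κ} {X Y : Finset V} (hX : ClosedL lab X) (hY : ClosedL lab Y) :
    ClosedL lab (X \ Y) := fun a b h => by
  rw [Finset.mem_sdiff, Finset.mem_sdiff, hX a b h, hY a b h]

theorem ClosedL.compl {lab : V → κ} {X : Finset V} (hX : ClosedL lab X) :
    ClosedL lab Xᶜ := fun a b h => by
  rw [Finset.mem_compl, Finset.mem_compl, hX a b h]

theorem SepT.compl {lab : V → κ} {S : Set κ} {X : Finset V} (h : SepT lab S X) :
    SepT lab S Xᶜ := by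
  obtain ⟨⟨a, ha, ha'⟩, b, hb, hb'⟩ := h
  exact ⟨⟨b, hb, Finset.mem_compl.2 hb'⟩, a, ha, fun h' => Finset.mem_compl.1 h' ha'⟩

/-- tight sets containing `y` and missing the class `z` -/
structure P (lab : V → κ) (S : Set κ) (K : ℕ) (L : Multiset (V × V)) (y : V) (z : κ)
    (X : Finset V) : Prop where
  cl : ClosedL lab X
  sep : SepT lab S X
  cut : mcut L X = K
  mem : y ∈ X
  miss : ∀ v, lab v = z → v ∉ X

theorem P.union {lab : V → κ} {S : Set κ} {K : ℕ} {L' : Multiset (V × V)} {q : V × V}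
    {u y : V} {z : κ} (hu : lab u = z) (hind : ∀ X : Finset V, sp q X = sp (u, y) X)
    (hcon : ∀ X : Finset V, ClosedL lab X → SepT lab S X → K ≤ mcut (q ::ₘ L') X)
    {X Y : Finset V} (hX : P lab S K (q ::ₘ L') y z X) (hY : P lab S K (q ::ₘ L') y z Y) :
    P lab S K (q ::ₘ L') y z (X ∪ Y) := by
  have hmiss : ∀ v, lab v = z → v ∉ X ∪ Y := fun v hv h => by
    rcases Finset.mem_union.1 h with h | h
    · exact hX.miss v hv h
    · exact hY.miss v hv h
  obtain ⟨⟨uX, huX, huX'⟩, vX, hvX, hvX'⟩ := hX.sep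
  obtain ⟨⟨uY, huY, huY'⟩, vY, hvY, hvY'⟩ := hY.sep
  by_cases hc : (∃ a, lab a ∈ S ∧ a ∈ X ∩ Y) ∧ ∃ b, lab b ∈ S ∧ b ∉ X ∪ Y
  · obtain ⟨⟨a, ha, ha'⟩, b, hb, hb'⟩ := hc
    have s1 : SepT lab S (X ∩ Y) := ⟨⟨a, ha, ha'⟩, b, hb, fun h =>
      hb' (Finset.mem_union_left _ (Finset.mem_of_mem_inter_left h))⟩
    have s2 : SepT lab S (X ∪ Y) := ⟨⟨a, ha, Finset.mem_union_left _
      (Finset.mem_of_mem_inter_left ha')⟩, b, hb, hb'⟩
    have c1 := hcon _ (ClosedL.inter hX.cl hY.cl) s1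
    have c2 := hcon _ (ClosedL.union hX.cl hY.cl) s2
    have c3 := mcut_two_le (q ::ₘ L') (X ∩ Y) (X ∪ Y) X Y fun q' _ => sp_union_inter q' X Y
    have c4 := hX.cut
    have c5 := hY.cut
    exact ⟨ClosedL.union hX.cl hY.cl, s2, by omega, Finset.mem_union_left _ hX.mem, hmiss⟩
  · exfalso
    have s : SepT lab S (X \ Y) ∧ SepT lab S (Y \ X) := by
      rw [not_and_or] at hc
      rcases hc with hc | hc
      · push Not at hc
        have e1 : uX ∉ Y := fun h => hc uX huX (Finset.mem_inter.2 ⟨huX', h⟩)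
        have e2 : uY ∉ X := fun h => hc uY huY (Finset.mem_inter.2 ⟨h, huY'⟩)
        exact ⟨⟨⟨uX, huX, Finset.mem_sdiff.2 ⟨huX', e1⟩⟩, uY, huY,
          fun h => (Finset.mem_sdiff.1 h).2 huY'⟩, ⟨⟨uY, huY, Finset.mem_sdiff.2 ⟨huY', e2⟩⟩,
          uX, huX, fun h => (Finset.mem_sdiff.1 h).2 huX'⟩⟩
      · push Not at hc
        have e1 : vX ∈ Y := by
          rcases Finset.mem_union.1 (hc vX hvX) with h | h
          · exact absurd h hvX'
          · exact h
        have e2 : vY ∈ X := by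
          rcases Finset.mem_union.1 (hc vY hvY) with h | h
          · exact h
          · exact absurd h hvY'
        exact ⟨⟨⟨vY, hvY, Finset.mem_sdiff.2 ⟨e2, hvY'⟩⟩, vX, hvX,
          fun h => hvX' (Finset.mem_sdiff.1 h).1⟩, ⟨⟨vX, hvX, Finset.mem_sdiff.2 ⟨e1, hvX'⟩⟩,
          vY, hvY, fun h => hvY' (Finset.mem_sdiff.1 h).1⟩⟩
    have c1 := hcon _ (ClosedL.sdiff hX.cl hY.cl) s.1
    have c2 := hcon _ (ClosedL.sdiff hY.cl hX.cl) s.2
    have c3 := mcut_two_le L' (X \ Y) (Y \ X) X Y fun q' _ => sp_sdiff q' X Y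
    have c4 := hX.cut
    have c5 := hY.cut
    have c6 := sp_sdiff_two u y X Y hX.mem hY.mem (hX.miss u hu) (hY.miss u hu)
    rw [mcut_cons, hind] at c1 c2 c4 c5
    omega

end SplitStep

open SplitStep in
theorem split_step {V : Type u} {κ : Type w} [Fintype V] [DecidableEq V] [DecidableEq κ]
    (lab : V → κ) (S : Set κ) (K : ℕ) (hK : Even K) (L : Multiset (V × V))
    (hnl : ∀ q ∈ L, lab q.1 ≠ lab q.2)
    (hev : ∀ X : Finset V, ClosedL lab X → Even (mcut L X))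
    (hcon : ∀ X : Finset V, ClosedL lab X → SepT lab S X → K ≤ mcut L X)
    (hz : ∃ q ∈ L, lab q.1 ∉ S ∨ lab q.2 ∉ S) :
    ∃ L₁ : Multiset (V × V), L₁.card < L.card ∧
      (∀ X : Finset V, ClosedL lab X → Even (mcut L₁ X)) ∧
      (∀ X : Finset V, ClosedL lab X → SepT lab S X → K ≤ mcut L₁ X) ∧
      (∀ X : Finset V, CutsOnly lab S X → mcut L₁ X ≤ mcut L X) := by
  classical
  obtain ⟨q, hq, hqS⟩ := hz
  obtain ⟨z, hzS, hqz⟩ : ∃ z, z ∉ S ∧ (lab q.1 = z ∨ lab q.2 = z) := by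
    rcases hqS with h | h
    · exact ⟨_, h, Or.inl rfl⟩
    · exact ⟨_, h, Or.inr rfl⟩
  obtain ⟨u, y, hu, hy, hind⟩ := orient lab z q (hnl q hq) hqz
  obtain ⟨L', rfl⟩ := Multiset.exists_cons_of_mem hq
  by_contra hno
  -- every other pair at `z` gives a tight set
  have hX : ∀ q₂ ∈ L', (lab q₂.1 = z ∨ lab q₂.2 = z) → ∃ X, P lab S K (q ::ₘ L') y z X ∧
      ∀ v, (v = q₂.1 ∨ v = q₂.2) → lab v ≠ z → v ∈ X := by
    intro q₂ hq₂ hz₂
    have hnl₂ := hnl q₂ (Multiset.mem_cons_of_mem hq₂)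
    obtain ⟨u₂, y₂, hu₂, hy₂, hind₂, hyy⟩ : ∃ u₂ y₂, lab u₂ = z ∧ lab y₂ ≠ z ∧
        (∀ X : Finset V, sp q₂ X = sp (u₂, y₂) X) ∧
        ∀ v, (v = q₂.1 ∨ v = q₂.2) → lab v ≠ z → v = y₂ := by
      rcases hz₂ with h | h
      · refine ⟨q₂.1, q₂.2, h, fun h' => hnl₂ (h.trans h'.symm), fun X => rfl, ?_⟩
        rintro v (rfl | rfl) hv
        · exact absurd h hv
        · rfl
      · refine ⟨q₂.2, q₂.1, h, fun h' => hnl₂ (h'.trans h.symm), fun X => sp_swap _ _ _, ?_⟩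
        rintro v (rfl | rfl) hv
        · rfl
        · exact absurd h hv
    obtain ⟨L'', rfl⟩ := Multiset.exists_cons_of_mem hq₂
    have hclu : ∀ X : Finset V, ClosedL lab X → (u ∈ X ↔ u₂ ∈ X) := fun X hX =>
      hX u u₂ (hu.trans hu₂.symm)
    have hcar : ∀ X : Finset V, mcut (q ::ₘ q₂ ::ₘ L'') X =
        sp (u, y) X + sp (u₂, y₂) X + mcut L'' X := by
      intro X
      rw [mcut_cons, mcut_cons, hind, hind₂, add_assoc]
    have hnot : ¬ ∀ X : Finset V, ClosedL lab X → SepT lab S X →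
        K ≤ mcut ((y, y₂) ::ₘ L'') X := by
      intro h
      refine hno ⟨(y, y₂) ::ₘ L'', ?_, ?_, h, ?_⟩
      · simp only [Multiset.card_cons]
        omega
      · intro X hXc
        have h1 := hev X hXc
        rw [hcar] at h1
        rw [mcut_cons]
        rcases tri u y u₂ y₂ X (hclu X hXc) with h2 | ⟨h2, -⟩
        · rw [h2] at h1
          exact h1
        · rw [h2] at h1
          rw [Nat.even_iff] at h1 ⊢
          omega
      · intro X hXc
        rw [hcar, mcut_cons]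
        have h3 : u ∈ X ↔ u₂ ∈ X := hXc u u₂ (hu.trans hu₂.symm) (by rw [hu]; exact hzS)
        rcases tri u y u₂ y₂ X h3 with h2 | ⟨h2, -⟩ <;> omega
    push Not at hnot
    obtain ⟨X, hXc, hXs, hXK⟩ := hnot
    have h1 := hev X hXc
    have h2 := hcon X hXc hXs
    have h3 : mcut (q ::ₘ q₂ ::ₘ L'') X = K ∧ ¬ (u ∈ X ↔ y ∈ X) ∧ (y ∈ X ↔ y₂ ∈ X) := by
      rw [mcut_cons] at hXK
      rw [hcar] at h1 h2 ⊢
      rcases tri u y u₂ y₂ X (hclu X hXc) with h4 | ⟨h4, h5, h6⟩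
      · omega
      · refine ⟨?_, h5, h6⟩
        rw [Nat.even_iff] at h1 hK
        omega
    obtain ⟨h4, h5, h6⟩ := h3
    by_cases hyX : y ∈ X
    · have huX : u ∉ X := fun h => h5 ⟨fun _ => hyX, fun _ => h⟩
      refine ⟨X, ⟨hXc, hXs, h4, hyX, fun v hv h => huX ((hXc v u (hv.trans hu.symm)).1 h)⟩, ?_⟩
      intro v hv hvz
      rw [hyy v hv hvz]
      exact h6.1 hyX
    · have huX : u ∈ X := by
        by_contra h
        exact h5 ⟨fun h' => absurd h' h, fun h' => absurd h' hyX⟩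
      refine ⟨Xᶜ, ⟨ClosedL.compl hXc, SepT.compl hXs, by rw [mcut_compl]; exact h4,
        Finset.mem_compl.2 hyX, fun v hv h => Finset.mem_compl.1 h
          ((hXc u v (hu.trans hv.symm)).1 huX)⟩, ?_⟩
      intro v hv hvz
      rw [hyy v hv hvz]
      exact Finset.mem_compl.2 fun h => hyX (h6.2 h)
  -- there is another pair at `z`
  obtain ⟨Z, hZ⟩ : ∃ Z : Finset V, Z = univ.filter (fun v => lab v = z) := ⟨_, rfl⟩
  have hZm : ∀ v, v ∈ Z ↔ lab v = z := fun v => by rw [hZ]; simp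
  have hZc : ClosedL lab Z := fun a b h => by rw [hZm, hZm, h]
  have hex : ∃ q₂ ∈ L', lab q₂.1 = z ∨ lab q₂.2 = z := by
    by_contra hcon'
    push Not at hcon'
    have h1 := hev Z hZc
    have h2 : mcut L' Z = 0 := by
      unfold mcut
      rw [Multiset.sum_eq_zero_iff]
      intro x hx
      obtain ⟨q', hq', rfl⟩ := Multiset.mem_map.1 hx
      have h3 := hcon' q' hq'
      simp [hZm, h3.1, h3.2]
    have h3 : sp (u, y) Z = 1 := by
      unfold sp
      simp [hZm, hu, hy]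
    rw [mcut_cons, hind, h2, h3] at h1
    revert h1
    decide
  obtain ⟨q₂, hq₂, hz₂⟩ := hex
  obtain ⟨X₂, hX₂, -⟩ := hX q₂ hq₂ hz₂
  -- the largest tight set
  obtain ⟨W, hW, hmax⟩ := Finset.exists_max_image
    ((univ : Finset (Finset V)).filter fun X => P lab S K (q ::ₘ L') y z X) Finset.card
    ⟨X₂, Finset.mem_filter.2 ⟨Finset.mem_univ _, hX₂⟩⟩
  have hWP : P lab S K (q ::ₘ L') y z W := (Finset.mem_filter.1 hW).2
  have hsub : ∀ X, P lab S K (q ::ₘ L') y z X → X ⊆ W := by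
    intro X hXP
    have h1 : P lab S K (q ::ₘ L') y z (W ∪ X) := P.union hu hind hcon hWP hXP
    have h2 := hmax (W ∪ X) (Finset.mem_filter.2 ⟨Finset.mem_univ _, h1⟩)
    have h3 : W = W ∪ X := Finset.eq_of_subset_of_card_le Finset.subset_union_left h2
    rw [h3]
    exact Finset.subset_union_right
  have hcl : ClosedL lab (W ∪ Z) := ClosedL.union hWP.cl hZc
  have hsep : SepT lab S (W ∪ Z) := by
    obtain ⟨⟨a, ha, ha'⟩, b, hb, hb'⟩ := hWP.sep
    refine ⟨⟨a, ha, Finset.mem_union_left _ ha'⟩, b, hb, fun h => ?_⟩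
    rcases Finset.mem_union.1 h with h | h
    · exact hb' h
    · rw [hZm] at h
      rw [h] at hb
      exact hzS hb
  have c1 := hcon _ hcl hsep
  have c2 := hWP.cut
  have c3 : mcut L' (W ∪ Z) ≤ mcut L' W := by
    refine mcut_le _ _ _ fun q' hq' => ?_
    by_cases h1 : lab q'.1 = z ∨ lab q'.2 = z
    · obtain ⟨X', hX', hX''⟩ := hX q' hq' h1
      have h2 : ∀ v, (v = q'.1 ∨ v = q'.2) → v ∈ W ∪ Z := by
        intro v hv
        by_cases h3 : lab v = z
        · exact Finset.mem_union_right _ ((hZm v).2 h3)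
        · exact Finset.mem_union_left _ (hsub X' hX' (hX'' v hv h3))
      unfold sp
      rw [if_pos (iff_of_true (h2 _ (Or.inl rfl)) (h2 _ (Or.inr rfl)))]
      exact Nat.zero_le _
    · push Not at h1
      unfold sp
      simp only [Finset.mem_union, hZm, h1.1, h1.2, or_false]
      exact le_rfl
  have c4 : sp (u, y) (W ∪ Z) = 0 := by
    unfold sp
    rw [if_pos]
    exact iff_of_true (Finset.mem_union_right _ ((hZm u).2 hu)) (Finset.mem_union_left _ hWP.mem)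
  have c5 : sp (u, y) W = 1 := by
    unfold sp
    rw [if_neg]
    intro h
    exact hWP.miss u hu (h.2 hWP.mem)
  rw [mcut_cons, hind] at c1 c2
  omega

end Pool.Agent.H185D
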