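import Pool.Agent.H185D.ExLinks
import Pool.Agent.H185D.SplitOff
import Pool.Agent.H185D.SplitStep

/-!
S2 and S4 closed: complete splitting and existence of the links.
-/

set_option autoImplicit false

namespace Pool.Agent.H185D
open Finset Pool.Agent.H160R2.HF Pool.Agent.H160R2.HF.OrGraph Pool.Agent.H884R2.HFP
open Pool.Agent.H185C

universe u v w

theorem split_off {V : Type u} {κ : Type w} [Fintype V] [DecidableEq V] [DecidableEq κ]
    (lab : V → κ) (S : Set κ) (K : ℕ) (hK : Even K) (L : Multiset (V × V))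
    (hev : ∀ X : Finset V, ClosedL lab X → Even (mcut L X))
    (hcon : ∀ X : Finset V, ClosedL lab X → SepT lab S X → K ≤ mcut L X) :
    ∃ L₁ : Multiset (V × V),
      (∀ q ∈ L₁, lab q.1 ∈ S ∧ lab q.2 ∈ S ∧ lab q.1 ≠ lab q.2) ∧
      (∀ X : Finset V, ClosedL lab X → SepT lab S X → K ≤ mcut L₁ X) ∧
      (∀ X : Finset V, CutsOnly lab S X → mcut L₁ X ≤ mcut L X) :=
  split_off_of lab S K
    (fun L hnl hev hcon hz => split_step lab S K hK L hnl hev hcon hz) L hev hcon

variable {V : Type u} {E : Type v} [Fintype V] [Fintype E] [DecidableEq V] [DecidableEq E]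

theorem exists_links (G : OrGraph V E) (F : Finset E) (hF : G.IsTwoFactor F)
    (π : Equiv.Perm V) (ε : V → E) (hπ : IsPerm G F π ε) (k : ℕ) (hG : CycConn G k)
    [Fintype (OddCyc π)] [DecidableEq (OddCyc π)] :
    ∃ (m : ℕ) (a b : Fin m → V) (a' b' : Fin m → OddCyc π), Links G π a b a' b' ∧
      m ≤ 2 * k * Fintype.card (OddCyc π) ∧
      ∀ Y : Finset (OddCyc π), (∃ y, y ∈ Y) → (∃ y, y ∉ Y) →
        2 * k ≤ (univ.filter (fun i => ¬ (a' i ∈ Y ↔ b' i ∈ Y))).card :=
  exists_links_of (fun lab S K hK L hev hcon => split_off lab S K hK L hev hcon)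
    G F hF π ε hπ k hG

end Pool.Agent.H185D
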