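import Pool.Agent.H185D.Defs

/-!
S7: the numerical estimate (helper204, adapted from H185C.T24).
-/

set_option autoImplicit false

namespace Pool.Agent.H185D
open Finset Pool.Agent.H185C

theorem s7_choose (d t : ℕ) (ht : 1 ≤ t) (hdt : d ≤ 5 * t) :
    ((14 * LL * d).choose t : ℝ) ≤ ((2:ℝ) ^ 30) ^ t := by
  have h1 : ((14 * LL * d).choose t : ℝ) ≤ ((14 * LL * d : ℕ) : ℝ) ^ t / (t.factorial : ℝ) :=
    Nat.choose_le_pow_div t (14 * LL * d)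
  have htpos : (0:ℝ) < t := by exact_mod_cast ht
  have hf : (0:ℝ) < (t.factorial : ℝ) := by exact_mod_cast t.factorial_pos
  have h2 : (t:ℝ) ^ t / (t.factorial : ℝ) ≤ Real.exp t :=
    Real.pow_div_factorial_le_exp (t:ℝ) htpos.le t
  have h3 : Real.exp t ≤ 3 ^ t := by
    have : Real.exp (t:ℝ) = (Real.exp 1) ^ t := by
      rw [← Real.exp_nat_mul]; simp
    rw [this]
    exact pow_le_pow_left₀ (Real.exp_pos 1).le Real.exp_one_lt_three.le t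
  have h4 : ((14 * LL * d : ℕ) : ℝ) ^ t / (t.factorial : ℝ) =
      (((14 * LL * d : ℕ) : ℝ) / t) ^ t * ((t:ℝ) ^ t / (t.factorial : ℝ)) := by
    rw [div_pow]
    field_simp
  have h5 : ((14 * LL * d : ℕ) : ℝ) / t ≤ 70 * LL := by
    rw [div_le_iff₀ htpos]
    have : 14 * LL * d ≤ 70 * LL * t := by
      calc 14 * LL * d ≤ 14 * LL * (5 * t) := Nat.mul_le_mul_left _ hdt
        _ = 70 * LL * t := by ring
    exact_mod_cast this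
  have h6 : (0:ℝ) ≤ ((14 * LL * d : ℕ) : ℝ) / t := by positivity
  calc ((14 * LL * d).choose t : ℝ) ≤ ((14 * LL * d : ℕ) : ℝ) ^ t / (t.factorial : ℝ) := h1
    _ = (((14 * LL * d : ℕ) : ℝ) / t) ^ t * ((t:ℝ) ^ t / (t.factorial : ℝ)) := h4
    _ ≤ (70 * LL : ℝ) ^ t * 3 ^ t := by
        apply mul_le_mul (pow_le_pow_left₀ h6 h5 t) (h2.trans h3) (by positivity)
        positivity
    _ = (210 * LL : ℝ) ^ t := by rw [← mul_pow]; ring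
    _ ≤ ((2:ℝ) ^ 30) ^ t := by
        apply pow_le_pow_left₀ (by positivity)
        have : (LL : ℝ) = 2 ^ 22 := by unfold LL; norm_num
        rw [this]; norm_num

theorem s7_k (k : ℕ) (hk : 128 ≤ k) : (2 ^ 26 * k) ^ 3 ≤ 2 ^ k := by
  induction k, hk using Nat.le_induction with
  | base => norm_num
  | succ n hn ih =>
    have h1 : (2 ^ 26 * (n + 1)) ^ 3 ≤ 2 * (2 ^ 26 * n) ^ 3 := by
      have h2 : (n + 1) ^ 3 ≤ 2 * n ^ 3 := by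
        obtain ⟨m, rfl⟩ : ∃ m, n = m + 128 := ⟨n - 128, by omega⟩
        ring_nf
        nlinarith [sq_nonneg m, Nat.zero_le (m ^ 3)]
      calc (2 ^ 26 * (n + 1)) ^ 3 = 2 ^ 78 * (n + 1) ^ 3 := by ring
        _ ≤ 2 ^ 78 * (2 * n ^ 3) := Nat.mul_le_mul_left _ h2
        _ = 2 * (2 ^ 26 * n) ^ 3 := by ring
    calc (2 ^ 26 * (n + 1)) ^ 3 ≤ 2 * (2 ^ 26 * n) ^ 3 := h1
      _ ≤ 2 * 2 ^ n := Nat.mul_le_mul_left _ ih
      _ = 2 ^ (n + 1) := by rw [pow_succ, mul_comm]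

/-- `(2^26 k)^e ≤ 2^d` if `k e ≤ 3 d` -/
theorem s7_small (k e d : ℕ) (hk : 128 ≤ k) (hke : k * e ≤ 3 * d) :
    (2 ^ 26 * k) ^ e ≤ 2 ^ d := by
  have h1 : ((2 ^ 26 * k) ^ e) ^ k ≤ (2 ^ d) ^ k := by
    calc ((2 ^ 26 * k) ^ e) ^ k = (2 ^ 26 * k) ^ (k * e) := by rw [← pow_mul, mul_comm e k]
      _ ≤ (2 ^ 26 * k) ^ (3 * d) := Nat.pow_le_pow_right (by positivity) hke
      _ = ((2 ^ 26 * k) ^ 3) ^ d := by rw [pow_mul]
      _ ≤ (2 ^ k) ^ d := Nat.pow_le_pow_left (s7_k k hk) d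
      _ = (2 ^ d) ^ k := by rw [← pow_mul, ← pow_mul, mul_comm]
  exact (Nat.pow_le_pow_iff_left (by omega)).1 h1

theorem s7_term (k w q d : ℕ) (hk : 2 ^ 80 * (2 ^ 1840 * 2 ^ 480) ≤ k) (hkd : k ≤ d)
    (hw : w ^ 16 ≤ k ^ k) (hq : q ≤ 8 * LL * k * w) :
    ((1000000 : ℝ) ^ d * ((2 * d + 1) * (2 * q) ^ (2 * d / k + 1)) *
      ((14 * LL * d).choose (d / 5 + 1) : ℝ) * (1 / k) ^ (d / 5 + 1)) ≤ (1 / 2) ^ d := by
  have hk128 : 2 ^ 80 ≤ k := by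
    have h21 : 0 < 2 ^ 1840 * 2 ^ 480 := by positivity
    calc 2 ^ 80 = 2 ^ 80 * 1 := by rw [mul_one]
      _ ≤ 2 ^ 80 * (2 ^ 1840 * 2 ^ 480) := Nat.mul_le_mul_left _ h21
      _ ≤ k := hk
  have hk128' : 128 ≤ k := le_trans (by norm_num) hk128
  have hkpos : (0:ℝ) < k := by
    have : 0 < k := by omega
    exact_mod_cast this
  have hkR : (2:ℝ) ^ 80 * (2 ^ 1840 * 2 ^ 480) ≤ k := by exact_mod_cast hk
  have hkR30 : (2:ℝ) ^ 30 ≤ k := by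
    have h1 : (2:ℕ) ^ 30 ≤ k := le_trans (by norm_num) hk128
    exact_mod_cast h1
  set e := 2 * d / k + 1 with he
  set t := d / 5 + 1 with ht
  have hke : k * e ≤ 3 * d := by
    have h1 : k * (2 * d / k) ≤ 2 * d := Nat.mul_div_le _ _
    calc k * e = k * (2 * d / k) + k := by rw [he]; ring
      _ ≤ 2 * d + d := by omega
      _ = 3 * d := by ring
  have hdt : d ≤ 5 * t := by omega
  have hchoose := s7_choose d t (by omega) hdt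
  -- w ^ e
  have hN : ((w:ℝ) ^ e) ^ 16 ≤ (k:ℝ) ^ (3 * d) := by
    have h1 : (w ^ e) ^ 16 ≤ k ^ (3 * d) := by
      calc (w ^ e) ^ 16 = (w ^ 16) ^ e := by rw [← pow_mul, ← pow_mul, mul_comm]
        _ ≤ (k ^ k) ^ e := Nat.pow_le_pow_left hw e
        _ = k ^ (k * e) := by rw [← pow_mul]
        _ ≤ k ^ (3 * d) := Nat.pow_le_pow_right (by omega) hke
    exact_mod_cast h1
  -- (2 q) ^ e
  have hQ : ((2 * q : ℝ)) ^ e ≤ 2 ^ d * (w:ℝ) ^ e := by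
    have h1 : (2 * q) ^ e ≤ 2 ^ d * w ^ e := by
      have h2 : 2 * q ≤ 2 ^ 26 * k * w := by
        calc 2 * q ≤ 2 * (8 * LL * k * w) := Nat.mul_le_mul_left _ hq
          _ = 2 ^ 26 * k * w := by unfold LL; ring
      calc (2 * q) ^ e ≤ (2 ^ 26 * k * w) ^ e := Nat.pow_le_pow_left h2 e
        _ = (2 ^ 26 * k) ^ e * w ^ e := by rw [mul_pow]
        _ ≤ 2 ^ d * w ^ e := Nat.mul_le_mul_right _ (s7_small k e d hk128' hke)
    exact_mod_cast h1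
  have hD : (2 * (d:ℝ) + 1) ≤ 4 ^ d := by
    have h1 : 2 * d + 1 ≤ 4 ^ d := by
      have h2 : d + 1 ≤ 2 ^ d := Nat.lt_two_pow_self
      calc 2 * d + 1 ≤ (d + 1) * (d + 1) := by nlinarith
        _ ≤ 2 ^ d * 2 ^ d := Nat.mul_le_mul h2 h2
        _ = 4 ^ d := by rw [← mul_pow]; norm_num
    exact_mod_cast h1
  -- reduce to the product bound
  have hA : ((1000000 : ℝ) ^ d * ((2 * d + 1) * (2 * q) ^ e) *
      ((14 * LL * d).choose t : ℝ) * (1 / k) ^ t) ≤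
      (8000000 : ℝ) ^ d * (w:ℝ) ^ e * ((2:ℝ) ^ 30 / k) ^ t := by
    have e2 : ((2:ℝ) ^ 30 / k) ^ t = ((2:ℝ) ^ 30) ^ t * (1 / k) ^ t := by
      rw [← mul_pow]; congr 1; ring
    have e3 : (8000000 : ℝ) ^ d = 1000000 ^ d * 4 ^ d * 2 ^ d := by
      rw [← mul_pow, ← mul_pow]; norm_num
    rw [e2, e3]
    calc ((1000000 : ℝ) ^ d * ((2 * d + 1) * (2 * q) ^ e) *
          ((14 * LL * d).choose t : ℝ) * (1 / k) ^ t)
        ≤ (1000000 : ℝ) ^ d * (4 ^ d * (2 ^ d * (w:ℝ) ^ e)) * ((2:ℝ) ^ 30) ^ t * (1 / k) ^ t := by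
          gcongr
      _ = 1000000 ^ d * 4 ^ d * 2 ^ d * (w:ℝ) ^ e * (((2:ℝ) ^ 30) ^ t * (1 / k) ^ t) := by ring
  refine hA.trans ?_
  -- take 80th powers
  have hB : ((8000000 : ℝ) ^ d * (w:ℝ) ^ e * ((2:ℝ) ^ 30 / k) ^ t) ^ 80 ≤
      ((1 / 2 : ℝ) ^ d) ^ 80 := by
    have f1 : ((2:ℝ) ^ 30 / k) ≤ 1 := by
      rw [div_le_one hkpos]
      exact hkR30
    have f0 : (0:ℝ) ≤ (2:ℝ) ^ 30 / k := by positivity
    have f2 : (((2:ℝ) ^ 30 / k) ^ t) ^ 80 ≤ ((2:ℝ) ^ 30 / k) ^ (16 * d) := by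
      rw [← pow_mul]
      exact pow_le_pow_of_le_one f0 f1 (by omega)
    have f3 : (((w:ℝ) ^ e) ^ 80) ≤ (k:ℝ) ^ (15 * d) := by
      calc (((w:ℝ) ^ e) ^ 80) = (((w:ℝ) ^ e) ^ 16) ^ 5 := by rw [← pow_mul _ 16 5]
        _ ≤ ((k:ℝ) ^ (3 * d)) ^ 5 := pow_le_pow_left₀ (by positivity) hN 5
        _ = (k:ℝ) ^ (15 * d) := by rw [← pow_mul]; congr 1; ring
    have f4 : ((8000000 : ℝ) ^ d) ^ 80 ≤ ((2:ℝ) ^ 1840) ^ d := by
      rw [← pow_mul, mul_comm d 80, pow_mul]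
      apply pow_le_pow_left₀ (by positivity)
      calc (8000000 : ℝ) ^ 80 ≤ ((2:ℝ) ^ 23) ^ 80 := pow_le_pow_left₀ (by norm_num) (by norm_num) 80
        _ = (2:ℝ) ^ 1840 := by rw [← pow_mul]
    have f5 : (k:ℝ) ^ (15 * d) * ((2:ℝ) ^ 30 / k) ^ (16 * d) = ((2:ℝ) ^ 480 / k) ^ d := by
      rw [pow_mul, pow_mul, ← mul_pow]
      congr 1
      rw [div_pow, ← pow_mul]
      field_simp
    calc ((8000000 : ℝ) ^ d * (w:ℝ) ^ e * ((2:ℝ) ^ 30 / k) ^ t) ^ 80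
        = ((8000000 : ℝ) ^ d) ^ 80 * ((w:ℝ) ^ e) ^ 80 * (((2:ℝ) ^ 30 / k) ^ t) ^ 80 := by
          rw [mul_pow, mul_pow]
      _ ≤ ((2:ℝ) ^ 1840) ^ d * (k:ℝ) ^ (15 * d) * ((2:ℝ) ^ 30 / k) ^ (16 * d) := by
          gcongr
      _ = ((2:ℝ) ^ 1840) ^ d * ((2:ℝ) ^ 480 / k) ^ d := by rw [mul_assoc, f5]
      _ = ((2:ℝ) ^ 1840 * 2 ^ 480 / k) ^ d := by
          rw [← mul_pow, mul_div_assoc]
      _ ≤ ((1 / 2 : ℝ) ^ 80) ^ d := by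
          have hK0 : (0:ℝ) ≤ (2:ℝ) ^ 1840 * 2 ^ 480 := by positivity
          generalize (2:ℝ) ^ 1840 * 2 ^ 480 = K at hkR hK0 ⊢
          have hKk : K / k ≤ (1 / 2 : ℝ) ^ 80 := by
            rw [div_le_iff₀ hkpos]
            have g3 := mul_le_mul_of_nonneg_left hkR (by positivity : (0:ℝ) ≤ (1 / 2 : ℝ) ^ 80)
            have g1 : (1 / 2 : ℝ) ^ 80 * 2 ^ 80 = 1 := by rw [← mul_pow]; norm_num
            rw [← mul_assoc, g1, one_mul] at g3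
            exact g3
          exact pow_le_pow_left₀ (div_nonneg hK0 hkpos.le) hKk d
      _ = ((1 / 2 : ℝ) ^ d) ^ 80 := by rw [← pow_mul, ← pow_mul, mul_comm]
  exact le_of_pow_le_pow_left₀ (by norm_num) (by positivity) hB

theorem numeric2 : ∃ k₀ : ℕ, ∀ k w q M : ℕ, k₀ ≤ k → 1 ≤ w → w ^ 16 ≤ k ^ k →
    q ≤ 8 * LL * k * w →
    ∑ d ∈ Finset.Icc k M, ((1000000 : ℝ) ^ d * ((2 * d + 1) * (2 * q) ^ (2 * d / k + 1)) *
      ((14 * LL * d).choose (d / 5 + 1) : ℝ) * (1 / k) ^ (d / 5 + 1)) < 1 := by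
  refine ⟨2 ^ 80 * (2 ^ 1840 * 2 ^ 480), fun k w q M hk _ hw hq => ?_⟩
  have hk1 : 1 ≤ k := by
    have h0 : 0 < 2 ^ 80 * (2 ^ 1840 * 2 ^ 480) := by positivity
    exact lt_of_lt_of_le h0 hk
  have h1 : ∑ d ∈ Finset.Icc k M, ((1000000 : ℝ) ^ d * ((2 * d + 1) * (2 * q) ^ (2 * d / k + 1)) *
      ((14 * LL * d).choose (d / 5 + 1) : ℝ) * (1 / k) ^ (d / 5 + 1)) ≤
      ∑ d ∈ Finset.Icc k M, (1 / 2 : ℝ) ^ d :=
    Finset.sum_le_sum fun d hd => s7_term k w q d hk (Finset.mem_Icc.1 hd).1 hw hq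
  have h2 : ∑ d ∈ Finset.Icc k M, (1 / 2 : ℝ) ^ d ≤ ∑ d ∈ Finset.Icc 1 M, (1 / 2 : ℝ) ^ d := by
    apply Finset.sum_le_sum_of_subset_of_nonneg
    · exact Finset.Icc_subset_Icc_left hk1
    · intros; positivity
  have h3 : ∀ m : ℕ, ∑ d ∈ Finset.Icc 1 m, (1 / 2 : ℝ) ^ d = 1 - (1 / 2) ^ m := by
    intro m
    induction m with
    | zero => simp
    | succ m ih =>
      rw [Finset.sum_Icc_succ_top (by omega), ih, pow_succ]
      ring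
  have h4 : (0:ℝ) < (1 / 2) ^ M := by positivity
  rw [h3] at h2
  linarith

end Pool.Agent.H185D
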