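import Pool.Agent.H185D.Defs

/-! Task S8 (helper51): the number of odd cycles. -/

set_option autoImplicit false

namespace Pool.Agent.H185D
open Finset Pool.Agent.H160R2.HF Pool.Agent.H160R2.HF.OrGraph Pool.Agent.H884R2.HFP
open Pool.Agent.H185C

universe u v w

variable {V : Type u} {E : Type v} [Fintype V] [Fintype E] [DecidableEq V] [DecidableEq E]

theorem S8_step (G : OrGraph V E) (F : Finset E) (π : Equiv.Perm V) (ε : V → E)
    (hπ : IsPerm G F π ε) (v : V) : (G.sub F).Reachable v (π v) := by
  by_cases h : v = π v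
  · rw [← h]
  · apply SimpleGraph.Adj.reachable
    unfold OrGraph.sub
    rw [SimpleGraph.fromRel_adj]
    refine ⟨h, ?_⟩
    rcases hπ.2.2.2 v with ⟨h1, h2⟩ | ⟨h1, h2⟩
    · exact Or.inl ⟨ε v, hπ.2.1 v, h1, h2⟩
    · exact Or.inr ⟨ε v, hπ.2.1 v, h1, h2⟩

theorem S8_pow (G : OrGraph V E) (F : Finset E) (π : Equiv.Perm V) (ε : V → E)
    (hπ : IsPerm G F π ε) (j : ℕ) (v : V) : (G.sub F).Reachable v ((π ^ j) v) := by
  induction j with
  | zero => simp
  | succ j ih =>
    rw [pow_succ', Equiv.Perm.mul_apply]
    exact ih.trans (S8_step G F π ε hπ _)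

theorem S8_reach (G : OrGraph V E) (F : Finset E) (π : Equiv.Perm V) (ε : V → E)
    (hπ : IsPerm G F π ε) (u v : V) : cls π u = cls π v ↔ (G.sub F).Reachable u v := by
  constructor
  · intro h
    rw [cls_eq] at h
    obtain ⟨i, hi⟩ := h
    have h1 : ∃ j : ℕ, (π ^ j) u = v := by
      obtain ⟨j, -, hj⟩ := (show π.SameCycle u v from ⟨i, hi⟩).exists_pow_eq'
      exact ⟨j, hj⟩
    obtain ⟨j, rfl⟩ := h1
    exact S8_pow G F π ε hπ j u
  · rintro ⟨p⟩
    induction p with
    | nil => rfl
    | @cons a b c hab _ ih =>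
      rw [← ih]
      unfold OrGraph.sub at hab
      rw [SimpleGraph.fromRel_adj] at hab
      rcases hab.2 with ⟨e, he, h1, h2⟩ | ⟨e, he, h1, h2⟩
      · have := cls_edge G F π ε hπ e he
        rw [h1, h2] at this
        exact this
      · have := cls_edge G F π ε hπ e he
        rw [h1, h2] at this
        exact this.symm

/-- cycles and components -/
noncomputable def S8_map (G : OrGraph V E) (F : Finset E) (π : Equiv.Perm V) (ε : V → E)
    (hπ : IsPerm G F π ε) : Cyc π → (G.sub F).ConnectedComponent :=
  Quotient.lift (fun v => (G.sub F).connectedComponentMk v) (by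
    intro a b h
    rw [SimpleGraph.ConnectedComponent.eq]
    exact (S8_reach G F π ε hπ a b).1 (Quotient.sound h))

theorem S8_map_bij (G : OrGraph V E) (F : Finset E) (π : Equiv.Perm V) (ε : V → E)
    (hπ : IsPerm G F π ε) : Function.Bijective (S8_map G F π ε hπ) := by
  constructor
  · intro x y
    induction x using Quotient.inductionOn with
    | h a =>
      induction y using Quotient.inductionOn with
      | h b =>
        intro h
        have h1 : (G.sub F).connectedComponentMk a = (G.sub F).connectedComponentMk b := h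
        rw [SimpleGraph.ConnectedComponent.eq] at h1
        exact (S8_reach G F π ε hπ a b).2 h1
  · intro c
    induction c using SimpleGraph.ConnectedComponent.ind with
    | h v => exact ⟨cls π v, rfl⟩

theorem S8_size (G : OrGraph V E) (F : Finset E) (π : Equiv.Perm V) (ε : V → E)
    (hπ : IsPerm G F π ε) (c : Cyc π) : csize π c = (S8_map G F π ε hπ c).supp.ncard := by
  unfold csize
  rw [← Set.ncard_coe_finset]
  congr 1
  ext v
  induction c using Quotient.inductionOn with
  | h a =>
    rw [SimpleGraph.ConnectedComponent.mem_supp_iff]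
    have h1 : S8_map G F π ε hπ (Quotient.mk (Equiv.Perm.SameCycle.setoid π) a) =
        (G.sub F).connectedComponentMk a := rfl
    rw [h1, SimpleGraph.ConnectedComponent.eq, ← S8_reach G F π ε hπ]
    simp only [vert, Finset.coe_filter, Finset.mem_univ, true_and, Set.mem_setOf_eq,
      Finset.mem_singleton]

theorem card_oddCyc (G : OrGraph V E) (F : Finset E) (hF : G.IsTwoFactor F)
    (π : Equiv.Perm V) (ε : V → E) (hπ : IsPerm G F π ε) :
    Nat.card (OddCyc π) = G.oddCount F := by
  unfold OrGraph.oddCount
  rw [← Nat.card_coe_set_eq]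
  apply Nat.card_congr
  exact Equiv.subtypeEquiv (Equiv.ofBijective _ (S8_map_bij G F π ε hπ)) (fun c => by
    rw [S8_size G F π ε hπ c]
    rfl)

end Pool.Agent.H185D
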