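import Pool.Agent.H185D.Defs

/-!
Task S5: Karger's bound for the traces of cuts on a set of vertices.
-/

set_option autoImplicit false

namespace Pool.Agent.H185D
open Finset Pool.Agent.H160R2.HF Pool.Agent.H160R2.HF.OrGraph Pool.Agent.H884R2.HFP
open Pool.Agent.H185C

universe u v w

section graph
variable {V : Type u} {E : Type v} [Fintype V] [Fintype E] [DecidableEq V] [DecidableEq E]

omit [Fintype V] [DecidableEq E] in
theorem s5_mcut_twice (G : OrGraph V E) (X : Finset V) : mcut (twice G) X = 2 * (G.cut X).card := by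
  have h1 : (((univ : Finset E).val.map (fun e => (G.t e, G.h e))).map
      (fun q : V × V => if (q.1 ∈ X ↔ q.2 ∈ X) then 0 else 1)).sum = (G.cut X).card := by
    rw [Multiset.map_map]
    show ∑ e : E, (if (G.t e ∈ X ↔ G.h e ∈ X) then 0 else 1) = _
    unfold OrGraph.cut
    rw [Finset.card_filter]
    apply Finset.sum_congr rfl
    intro e _
    by_cases h : (G.t e ∈ X ↔ G.h e ∈ X)
    · rw [if_pos h, if_neg (not_not.2 h)]
    · rw [if_neg h, if_pos h]
  unfold mcut twice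
  rw [Multiset.map_add, Multiset.sum_add, h1]
  ring

/-- the graph of the splitted multiset on the labels -/
def s5_graph (p : V → V) (S : Finset V) (L : List (V × V))
    (h : ∀ q ∈ L, p q.1 ∈ S ∧ p q.2 ∈ S) : OrGraph {s // s ∈ S} (Fin L.length) where
  t := fun j => ⟨p (L[(j : ℕ)]).1, (h _ (List.getElem_mem j.2)).1⟩
  h := fun j => ⟨p (L[(j : ℕ)]).2, (h _ (List.getElem_mem j.2)).2⟩

omit [Fintype V] in
theorem s5_cut (p : V → V) (S : Finset V) (L : List (V × V))
    (h : ∀ q ∈ L, p q.1 ∈ S ∧ p q.2 ∈ S) (X : Finset V) (Y : Finset {s // s ∈ S})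
    (hXY : ∀ (v : V) (hv : p v ∈ S), v ∈ X ↔ (⟨p v, hv⟩ : {s // s ∈ S}) ∈ Y) :
    ((s5_graph p S L h).cut Y).card = mcut (L : Multiset (V × V)) X := by
  unfold mcut
  rw [Multiset.map_coe, Multiset.sum_coe, ← Fin.sum_univ_fun_getElem]
  unfold OrGraph.cut
  rw [Finset.card_filter]
  apply Finset.sum_congr rfl
  intro j _
  have e1 := hXY (L[(j : ℕ)]).1 (h _ (List.getElem_mem j.2)).1
  have e2 := hXY (L[(j : ℕ)]).2 (h _ (List.getElem_mem j.2)).2
  have e3 : ((s5_graph p S L h).t j ∈ Y ↔ (s5_graph p S L h).h j ∈ Y) ↔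
      ((L[(j : ℕ)]).1 ∈ X ↔ (L[(j : ℕ)]).2 ∈ X) := by
    rw [e1, e2]; rfl
  by_cases h0 : ((L[(j : ℕ)]).1 ∈ X ↔ (L[(j : ℕ)]).2 ∈ X)
  · rw [if_pos h0, if_neg (not_not.2 (e3.2 h0))]
  · rw [if_neg h0, if_pos (fun h1 => h0 (e3.1 h1))]

omit [DecidableEq E] in
/-- `steiner_karger` from the statement `split_off` of task S2 (for the labelling `p`) -/
theorem steiner_karger_of (p : V → V)
    (hsplit : ∀ (S : Set V) (K : ℕ), Even K → ∀ L : Multiset (V × V),
      (∀ X : Finset V, ClosedL p X → Even (mcut L X)) →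
      (∀ X : Finset V, ClosedL p X → SepT p S X → K ≤ mcut L X) →
      ∃ L₁ : Multiset (V × V),
        (∀ q ∈ L₁, p q.1 ∈ S ∧ p q.2 ∈ S ∧ p q.1 ≠ p q.2) ∧
        (∀ X : Finset V, ClosedL p X → SepT p S X → K ≤ mcut L₁ X) ∧
        (∀ X : Finset V, CutsOnly p S X → mcut L₁ X ≤ mcut L X))
    (G : OrGraph V E) (k a d : ℕ) (hk : 1 ≤ k) (hd : 2 * d ≤ a * k)
    (ha : 1 ≤ a)
    (h : ∀ X : Finset V, Closed p X → X.Nonempty → Xᶜ.Nonempty → k ≤ (G.cut X).card)
    (P : Finset V) (hP : P.Nonempty) (A : Finset (Finset V))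
    (hA : ∀ X ∈ A, Closed p X ∧ (G.cut X).card = d)
    (hinj : ∀ X ∈ A, ∀ Y ∈ A, X ∩ P = Y ∩ P → X = Y) :
    A.card ≤ (2 * d + 1) * (2 ^ a * P.card ^ a) := by
  classical
  obtain ⟨S, hS⟩ : ∃ S : Finset V, S = P.image p := ⟨_, rfl⟩
  obtain ⟨M₁, m1, m2, m3⟩ := hsplit (S : Set V) (2 * k) (even_two_mul k) (twice G)
    (fun X _ => by rw [s5_mcut_twice]; exact even_two_mul _)
    (fun X hX hs => by
      rw [s5_mcut_twice]
      obtain ⟨⟨u, -, hu⟩, v, -, hv⟩ := hs
      exact Nat.mul_le_mul_left 2 (h X hX ⟨u, hu⟩ ⟨v, Finset.mem_compl.2 hv⟩))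
  obtain ⟨L, rfl⟩ : ∃ L : List (V × V), M₁ = (L : Multiset (V × V)) :=
    ⟨M₁.toList, (Multiset.coe_toList M₁).symm⟩
  have hL : ∀ q ∈ L, p q.1 ∈ S ∧ p q.2 ∈ S := by
    intro q hq
    have := m1 q (Multiset.mem_coe.2 hq)
    exact ⟨by exact_mod_cast this.1, by exact_mod_cast this.2.1⟩
  have hmemS : ∀ x ∈ S, ∃ v ∈ P, p v = x := by
    intro x hx
    rw [hS] at hx
    exact Finset.mem_image.1 hx
  obtain ⟨G', hG'⟩ : ∃ G', G' = s5_graph p S L hL := ⟨_, rfl⟩
  -- the trace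
  obtain ⟨tr, htr⟩ : ∃ tr : Finset V → Finset {s // s ∈ S},
      tr = fun X => univ.filter (fun s => ∃ v ∈ P, p v = s.1 ∧ v ∈ X) := ⟨_, rfl⟩
  have htrX : ∀ X : Finset V, Closed p X → ∀ (v : V) (hv : p v ∈ S),
      v ∈ X ↔ (⟨p v, hv⟩ : {s // s ∈ S}) ∈ tr X := by
    intro X hX v hv
    rw [htr]
    simp only [Finset.mem_filter, Finset.mem_univ, true_and]
    constructor
    · intro hvX
      rw [hS] at hv
      obtain ⟨v0, hv0, he⟩ := Finset.mem_image.1 hv
      exact ⟨v0, hv0, he, (hX v0 v he).2 hvX⟩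
    · rintro ⟨v0, hv0, he, hX0⟩
      exact (hX v0 v he).1 hX0
  -- cuts of the traces
  have hcutX : ∀ X ∈ A, (G'.cut (tr X)).card ≤ 2 * d := by
    intro X hX
    obtain ⟨c1, c2⟩ := hA X hX
    rw [hG', s5_cut p S L hL X (tr X) (htrX X c1)]
    calc mcut (L : Multiset (V × V)) X ≤ mcut (twice G) X := m3 X (fun u v huv _ => c1 u v huv)
      _ = 2 * d := by rw [s5_mcut_twice, c2]
  -- lower bound for the cuts
  have hlow : ∀ Y : Finset {s // s ∈ S}, Closed id Y → Y.Nonempty → Yᶜ.Nonempty →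
      2 * k ≤ (G'.cut Y).card := by
    intro Y _ hY1 hY2
    obtain ⟨X, hX⟩ : ∃ X : Finset V, X = univ.filter (fun v => ∃ s ∈ Y, p v = s.1) := ⟨_, rfl⟩
    have hmem : ∀ (v : V) (hv : p v ∈ S), v ∈ X ↔ (⟨p v, hv⟩ : {s // s ∈ S}) ∈ Y := by
      intro v hv
      rw [hX]
      simp only [Finset.mem_filter, Finset.mem_univ, true_and]
      constructor
      · rintro ⟨s, hs, he⟩
        have : (⟨p v, hv⟩ : {s // s ∈ S}) = s := Subtype.ext he
        rw [this]; exact hs
      · intro hs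
        exact ⟨_, hs, rfl⟩
    rw [hG', s5_cut p S L hL X Y hmem]
    apply m2 X
    · intro u v huv
      rw [hX]
      simp only [Finset.mem_filter, Finset.mem_univ, true_and]
      rw [huv]
    · obtain ⟨s, hs⟩ := hY1
      obtain ⟨s', hs'⟩ := hY2
      obtain ⟨v, hv, he⟩ := hmemS s.1 s.2
      obtain ⟨v', hv', he'⟩ := hmemS s'.1 s'.2
      refine ⟨⟨v, ?_, ?_⟩, v', ?_, ?_⟩
      · rw [he]; exact s.2
      · rw [hmem v (by rw [he]; exact s.2)]
        have : (⟨p v, by rw [he]; exact s.2⟩ : {s // s ∈ S}) = s := Subtype.ext he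
        rw [this]; exact hs
      · rw [he']; exact s'.2
      · rw [hmem v' (by rw [he']; exact s'.2)]
        have : (⟨p v', by rw [he']; exact s'.2⟩ : {s // s ∈ S}) = s' := Subtype.ext he'
        rw [this]; exact Finset.mem_compl.1 hs'
  -- injectivity
  have hin : Set.InjOn tr (A : Set (Finset V)) := by
    intro X hX X' hX' he
    apply hinj X hX X' hX'
    ext v
    simp only [Finset.mem_inter]
    constructor
    · rintro ⟨h1, h2⟩
      have hv : p v ∈ S := by rw [hS]; exact Finset.mem_image_of_mem p h2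
      exact ⟨(htrX X' (hA X' hX').1 v hv).2 (he ▸ (htrX X (hA X hX).1 v hv).1 h1), h2⟩
    · rintro ⟨h1, h2⟩
      have hv : p v ∈ S := by rw [hS]; exact Finset.mem_image_of_mem p h2
      exact ⟨(htrX X (hA X hX).1 v hv).2 (he ▸ (htrX X' (hA X' hX').1 v hv).1 h1), h2⟩
  have hcard : A.card = (A.image tr).card := (Finset.card_image_of_injOn hin).symm
  have hι : 0 < Fintype.card {s // s ∈ S} := by
    obtain ⟨v, hv⟩ := hP
    exact Fintype.card_pos_iff.2 ⟨⟨p v, by rw [hS]; exact Finset.mem_image_of_mem p hv⟩⟩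
  have hι2 : Fintype.card {s // s ∈ S} ≤ P.card := by
    rw [Fintype.card_coe, hS]
    exact Finset.card_image_le
  have hfib : (A.image tr).card = ∑ e ∈ Finset.range (2 * d + 1),
      ((A.image tr).filter (fun Y => (G'.cut Y).card = e)).card := by
    apply Finset.card_eq_sum_card_fiberwise
    intro Y hY
    obtain ⟨X, hX, rfl⟩ := Finset.mem_image.1 hY
    exact Finset.mem_coe.2 (Finset.mem_range.2 (Nat.lt_succ_of_le (hcutX X hX)))
  rw [hcard, hfib]
  calc ∑ e ∈ Finset.range (2 * d + 1),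
      ((A.image tr).filter (fun Y => (G'.cut Y).card = e)).card
      ≤ ∑ _e ∈ Finset.range (2 * d + 1), (2 ^ a * P.card ^ a) := by
        apply Finset.sum_le_sum
        intro e he
        rw [Finset.mem_range] at he
        refine (karger G' (2 * k) a e (by omega) ?_ ha id hlow _ ?_ hι).trans ?_
        · calc 2 * e ≤ 2 * (2 * d) := by omega
            _ ≤ 2 * (a * k) := Nat.mul_le_mul_left 2 hd
            _ = a * (2 * k) := by ring
        · intro Y hY
          refine ⟨?_, (Finset.mem_filter.1 hY).2⟩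
          intro u v huv
          have : u = v := huv
          rw [this]
        · exact Nat.mul_le_mul_left _ (Nat.pow_le_pow_left hι2 a)
    _ = (2 * d + 1) * (2 ^ a * P.card ^ a) := by
        rw [Finset.sum_const, Finset.card_range, smul_eq_mul]

end graph

end Pool.Agent.H185D
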