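import Pool.Agent.H185D.Defs

set_option autoImplicit false
set_option linter.unusedSectionVars false

/-!
Task S6: counting traces of cuts (helper793).  The statement of `steiner_karger` (task S5) is an
explicit hypothesis.
-/

namespace Pool.Agent.H185D
open Finset Pool.Agent.H160R2.HF Pool.Agent.H160R2.HF.OrGraph Pool.Agent.H884R2.HFP
open Pool.Agent.H185C

universe u v w

namespace S6

variable {V : Type u} {E : Type v} [Fintype V] [Fintype E] [DecidableEq V] [DecidableEq E]

/-- a bound for the families of closed sets gives a bound for the weighted sum -/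
theorem main_sum (G : OrGraph V E) (hc : G.Cubic) (k : ℕ) (hG : CycConn G k)
    (hn : 2 * k ≤ Fintype.card V) (hk : 3 ≤ k)
    (g : ℕ → ℝ) (hg : GoodWeight g) (A : Finset (Finset V)) (hA : ∀ X ∈ A, Thick G X) (N₀ : ℕ)
    (st : ∀ (p : V → V),
      (∀ X : Finset V, Closed p X → X.Nonempty → Xᶜ.Nonempty → k ≤ (G.cut X).card) →
      ∀ B ⊆ A, (∀ X ∈ B, Closed p X) → B.card ≤ N₀) (N : ℕ) :
    ∀ p : V → V, (univ.image p).card = N → (∀ v, Conn G (blob p v)) →
      (∑ X ∈ A.filter (fun X => ∀ u v, p u = p v → (u ∈ X ↔ v ∈ X)), wt G g p X) ≤ (N₀ : ℝ) := by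
  induction N using Nat.strong_induction_on with
  | _ N ih =>
    intro p hN hp
    have hV : 0 < Fintype.card V := by omega
    have : Nonempty V := Fintype.card_pos_iff.1 hV
    obtain ⟨z, -, hz⟩ := Finset.exists_min_image (univ : Finset V) (fun v => (blob p v).card)
      Finset.univ_nonempty
    have hmin : ∀ v, (blob p z).card ≤ (blob p v).card := fun v => hz v (Finset.mem_univ v)
    by_cases hs : (blob p z).card + 2 < k
    · obtain ⟨e, -, hne, hle⟩ := phase_step G hc k hG hn g hg p hp z hmin hs A hA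
      refine le_trans hle ?_
      exact ih _ (hN ▸ T17.merge_card_lt G p e hne) (merge G p e) rfl
        (fun v => merge_conn G p hp e hne v)
    · have hbig : ∀ v, k ≤ (blob p v).card + 2 := fun v => by
        have := hmin v
        omega
      have hcut : ∀ X : Finset V, Closed p X → X.Nonempty → Xᶜ.Nonempty →
          k ≤ (G.cut X).card := by
        intro X hX h1 h2
        have hsub : ∀ Y : Finset V, Closed p Y → Y.Nonempty → k ≤ Y.card + 2 := by
          intro Y hY hne
          obtain ⟨y, hy⟩ := hne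
          have : blob p y ⊆ Y := by
            intro u hu
            unfold blob at hu
            rw [Finset.mem_filter] at hu
            exact (hY u y hu.2).2 hy
          have h3 := Finset.card_le_card this
          have h4 := hbig y
          omega
        have hXc : Closed p Xᶜ := by
          intro u v huv
          rw [Finset.mem_compl, Finset.mem_compl, hX u v huv]
        by_cases c1 : G.HasCycleIn X
        · by_cases c2 : G.HasCycleIn Xᶜ
          · exact hG X c1 c2
          · have h3 := acyclic_le G hc Xᶜ h2 c2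
            rw [T17.cut_compl] at h3
            exact (hsub Xᶜ hXc h2).trans h3
        · exact (hsub X hX h1).trans (acyclic_le G hc X h1 c1)
      have hB := st p hcut
        (A.filter (fun X => ∀ u v, p u = p v → (u ∈ X ↔ v ∈ X))) (Finset.filter_subset _ _) (by
          intro X hX
          rw [Finset.mem_filter] at hX
          exact hX.2)
      refine le_trans (Finset.sum_le_sum fun X _ => T17.wt_le_one G g hg p X) ?_
      rw [Finset.sum_const, nsmul_eq_mul, mul_one]
      exact_mod_cast hB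

theorem final (G : OrGraph V E) (hc : G.Cubic) (k : ℕ) (hk : 3 ≤ k) (hG : CycConn G k)
    (hn : 2 * k ≤ Fintype.card V) (d : ℕ)
    (g : ℕ → ℝ) (hg : GoodWeight g) (hg1 : (1 / 1000 : ℝ) ≤ g 1) (A : Finset (Finset V))
    (hA : ∀ X ∈ A, Thick G X ∧ (G.cut X).card = d) (N₀ : ℕ)
    (st : ∀ (p : V → V),
      (∀ X : Finset V, Closed p X → X.Nonempty → Xᶜ.Nonempty → k ≤ (G.cut X).card) →
      ∀ B ⊆ A, (∀ X ∈ B, Closed p X) → B.card ≤ N₀) :
    A.card ≤ 1000000 ^ d * N₀ := by
  have h := main_sum G hc k hG hn hk g hg A (fun X hX => (hA X hX).1) N₀ st _ (fun x => x) rfl (by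
    intro v
    rw [T17.blob_id]
    intro Y hY h1 h2
    exfalso
    obtain ⟨y, hy⟩ := h1
    obtain ⟨z, hz⟩ := h2
    rw [Finset.mem_sdiff, Finset.mem_singleton] at hz
    have h3 := hY hy
    rw [Finset.mem_singleton] at h3
    exact hz.2 (by rw [hz.1, ← h3]; exact hy))
  have h1 : A.filter (fun X => ∀ u v : V, (fun x : V => x) u = (fun x : V => x) v →
      (u ∈ X ↔ v ∈ X)) = A := by
    apply Finset.filter_true_of_mem
    intro X _ u v huv
    have : u = v := huv
    rw [this]
  rw [h1] at h
  have h2 : ∀ X ∈ A, (1 / 1000000 : ℝ) ^ d ≤ wt G g (fun x => x) X := by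
    intro X hX
    unfold wt
    rw [← (hA X hX).2]
    simp only [T17.blob_id, Finset.card_singleton, Finset.prod_const]
    apply pow_le_pow_left₀ (by norm_num)
    nlinarith
  have h3 : (A.card : ℝ) * (1 / 1000000 : ℝ) ^ d ≤ (N₀ : ℝ) := by
    refine le_trans ?_ h
    rw [← nsmul_eq_mul, ← Finset.sum_const]
    exact Finset.sum_le_sum h2
  have h4 : (A.card : ℝ) ≤ (1000000 : ℝ) ^ d * (N₀ : ℝ) := by
    have h5 : (A.card : ℝ) = (1000000 : ℝ) ^ d * ((A.card : ℝ) * (1 / 1000000 : ℝ) ^ d) := by
      rw [one_div, inv_pow]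
      field_simp
    rw [h5]
    exact mul_le_mul_of_nonneg_left h3 (by positivity)
  exact_mod_cast h4

end S6

section graph
variable {V : Type u} {E : Type v} [Fintype V] [Fintype E] [DecidableEq V] [DecidableEq E]

/-- counting traces of cuts; `st` is the statement of `steiner_karger` (task S5) for `G` -/
theorem trace_count (G : OrGraph V E) (hc : G.Cubic) (k : ℕ) (hk : 3 ≤ k) (hG : CycConn G k)
    (st : ∀ (a d : ℕ), 1 ≤ k → 2 * d ≤ a * k → 1 ≤ a → ∀ (p : V → V),
      (∀ X : Finset V, Closed p X → X.Nonempty → Xᶜ.Nonempty → k ≤ (G.cut X).card) →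
      ∀ (P : Finset V), P.Nonempty → ∀ (A : Finset (Finset V)),
      (∀ X ∈ A, Closed p X ∧ (G.cut X).card = d) →
      (∀ X ∈ A, ∀ Y ∈ A, X ∩ P = Y ∩ P → X = Y) →
      A.card ≤ (2 * d + 1) * (2 ^ a * P.card ^ a))
    (hn : 2 * k ≤ Fintype.card V) (d : ℕ) (P : Finset V) (hP : P.Nonempty)
    (A : Finset (Finset V)) (hA : ∀ X ∈ A, Thick G X ∧ (G.cut X).card = d)
    (hinj : ∀ X ∈ A, ∀ Y ∈ A, X ∩ P = Y ∩ P → X = Y) :
    A.card ≤ 1000000 ^ d * ((2 * d + 1) * (2 * P.card) ^ (2 * d / k + 1)) := by
  obtain ⟨g, hg, hg1⟩ := exists_weight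
  rw [mul_pow]
  refine S6.final G hc k hk hG hn d g hg hg1 A hA _ ?_
  intro p hp B hB hcl
  exact st (2 * d / k + 1) d (by omega) (by
      have := Nat.lt_div_mul_add (a := 2 * d) (b := k) (by omega)
      nlinarith) (Nat.le_add_left 1 _) p hp P hP B
    (fun X hX => ⟨hcl X hX, (hA X (hB hX)).2⟩)
    (fun X hX Y hY h => hinj X (hB hX) Y (hB hY) h)

end graph

end Pool.Agent.H185D
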