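import Pool.Agent.H185D.Defs

/-! S9: `Zs` and `PP`. -/

set_option autoImplicit false

namespace Pool.Agent.H185D
open Finset Pool.Agent.H160R2.HF Pool.Agent.H160R2.HF.OrGraph Pool.Agent.H884R2.HFP
open Pool.Agent.H185C

universe u v w

section graph
variable {V : Type u} {E : Type v} [Fintype V] [Fintype E] [DecidableEq V] [DecidableEq E]

theorem s9_cut_single (G : OrGraph V E) (hc : G.Cubic) (v : V) : (G.cut {v}).card ≤ 3 := by
  have h1 : G.cut {v} ⊆ univ.filter (fun e => G.t e = v) ∪ univ.filter (fun e => G.h e = v) := by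
    intro e he
    rw [OrGraph.cut, Finset.mem_filter] at he
    simp only [Finset.mem_union, Finset.mem_filter, Finset.mem_univ, true_and]
    by_contra hcon
    push Not at hcon
    apply he.2
    rw [Finset.mem_singleton, Finset.mem_singleton]
    exact ⟨fun h => absurd h hcon.1, fun h => absurd h hcon.2⟩
  calc (G.cut {v}).card ≤ _ := Finset.card_le_card h1
    _ ≤ (univ.filter (fun e => G.t e = v)).card + (univ.filter (fun e => G.h e = v)).card :=
        Finset.card_union_le _ _
    _ = 3 := hc v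

theorem card_Zs (G : OrGraph V E) (hc : G.Cubic) (F : Finset E)
    (π : Equiv.Perm V) (ε : V → E) (hπ : IsPerm G F π ε) (L : ℕ) (hL : 1 ≤ L) (blk : V → V)
    (hb : IsBlocks π L blk) {m : ℕ} (a b : Fin m → V) (hne : ∀ i, a i ≠ b i)
    (hcut : ∀ X : Finset V,
      (univ.filter (fun i => ¬ (a i ∈ X ↔ b i ∈ X))).card ≤ 2 * (G.cut X).card)
    (X : Finset V) : (Zs blk a b X).card ≤ 14 * L * (G.cut X).card := by
  classical
  set W : Finset V := univ.filter (fun v => CutBlock blk X (blk v)) with hW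
  set C : Finset V := W.image blk with hCdef
  have hCc : C.card ≤ (G.cut X ∩ F).card := by
    refine cutblocks_le G F π ε hπ L blk hb X C fun b hbC => ?_
    obtain ⟨v, hv, rfl⟩ := Finset.mem_image.1 hbC
    exact (Finset.mem_filter.1 hv).2
  have hWc : W.card ≤ C.card * (2 * L) := by
    have hsub : W ⊆ (C ×ˢ Finset.range (2 * L)).image (fun q => (π ^ q.2) q.1) := by
      intro v hv
      obtain ⟨j, hj, hj1, _⟩ := hb.2.1 v
      exact Finset.mem_image.2 ⟨(blk v, j), Finset.mem_product.2
        ⟨Finset.mem_image_of_mem _ hv, Finset.mem_range.2 hj⟩, hj1⟩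
    refine (Finset.card_le_card hsub).trans (Finset.card_image_le.trans ?_)
    rw [Finset.card_product, Finset.card_range]
  have hd : C.card ≤ (G.cut X).card :=
    hCc.trans (Finset.card_le_card Finset.inter_subset_left)
  have hZ : Zs blk a b X ⊆ univ.filter (fun i => ¬ (a i ∈ X ↔ b i ∈ X)) ∪
      W.biUnion (fun v => univ.filter (fun i => ¬ (a i ∈ ({v} : Finset V) ↔ b i ∈ ({v} : Finset V)))) := by
    intro i hi
    rw [Zs, Finset.mem_filter] at hi
    rw [Finset.mem_union]
    rcases hi.2 with h1 | h1 | h1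
    · left
      exact Finset.mem_filter.2 ⟨Finset.mem_univ _, h1⟩
    · right
      refine Finset.mem_biUnion.2 ⟨a i, Finset.mem_filter.2 ⟨Finset.mem_univ _, h1⟩, ?_⟩
      refine Finset.mem_filter.2 ⟨Finset.mem_univ _, fun h => ?_⟩
      have := h.1 (Finset.mem_singleton_self _)
      exact hne i (Finset.mem_singleton.1 this).symm
    · right
      refine Finset.mem_biUnion.2 ⟨b i, Finset.mem_filter.2 ⟨Finset.mem_univ _, h1⟩, ?_⟩
      refine Finset.mem_filter.2 ⟨Finset.mem_univ _, fun h => ?_⟩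
      have := h.2 (Finset.mem_singleton_self _)
      exact hne i (Finset.mem_singleton.1 this)
  have hbu : (W.biUnion (fun v => univ.filter
      (fun i => ¬ (a i ∈ ({v} : Finset V) ↔ b i ∈ ({v} : Finset V))))).card ≤ W.card * 6 := by
    refine Finset.card_biUnion_le_card_mul _ _ _ fun v _ => ?_
    refine (hcut {v}).trans ?_
    have := s9_cut_single G hc v
    omega
  have h5 := (Finset.card_le_card hZ).trans (Finset.card_union_le _ _)
  have h6 := hcut X
  have h7 : W.card * 6 ≤ (G.cut X).card * (2 * L) * 6 :=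
    Nat.mul_le_mul_right _ (hWc.trans (Nat.mul_le_mul_right _ hd))
  have h8 : 2 * (G.cut X).card ≤ 2 * L * (G.cut X).card := by
    have : 2 * 1 ≤ 2 * L := by omega
    calc 2 * (G.cut X).card = 2 * 1 * (G.cut X).card := by ring
      _ ≤ 2 * L * (G.cut X).card := Nat.mul_le_mul_right _ this
  calc (Zs blk a b X).card ≤ 2 * (G.cut X).card + W.card * 6 :=
        h5.trans (Nat.add_le_add h6 hbu)
    _ ≤ 2 * L * (G.cut X).card + (G.cut X).card * (2 * L) * 6 := Nat.add_le_add h8 h7
    _ = 14 * L * (G.cut X).card := by ring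

theorem card_PP (π : Equiv.Perm V) (L : ℕ) (blk : V → V) (hb : IsBlocks π L blk) {m : ℕ}
    (a b : Fin m → V) : (PP blk a b).card ≤ 4 * L * m := by
  classical
  have hsub : PP blk a b ⊆ ((univ : Finset (Fin m × Bool)) ×ˢ Finset.range (2 * L)).image
      (fun q => (π ^ q.2) (blk (if q.1.2 then a q.1.1 else b q.1.1))) := by
    intro v hv
    rw [PP, Finset.mem_filter] at hv
    obtain ⟨_, i, hi⟩ := hv
    obtain ⟨j, hj, hj1, _⟩ := hb.2.1 v
    rcases hi with hi | hi
    · refine Finset.mem_image.2 ⟨((i, true), j), Finset.mem_product.2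
        ⟨Finset.mem_univ _, Finset.mem_range.2 hj⟩, ?_⟩
      simp only [if_true]
      rw [← hi]
      exact hj1
    · refine Finset.mem_image.2 ⟨((i, false), j), Finset.mem_product.2
        ⟨Finset.mem_univ _, Finset.mem_range.2 hj⟩, ?_⟩
      simp only [Bool.false_eq_true, if_false]
      rw [← hi]
      exact hj1
  refine (Finset.card_le_card hsub).trans (Finset.card_image_le.trans ?_)
  rw [Finset.card_product, Finset.card_range, Finset.card_univ, Fintype.card_prod,
    Fintype.card_fin, Fintype.card_bool]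
  apply le_of_eq
  ring

theorem Zs_trace (blk : V → V) {m : ℕ} (a b : Fin m → V) (X Y : Finset V)
    (h : X ∩ PP blk a b = Y ∩ PP blk a b) : Zs blk a b X = Zs blk a b Y := by
  classical
  have key : ∀ v ∈ PP blk a b, (v ∈ X ↔ v ∈ Y) := by
    intro v hv
    have : v ∈ X ∩ PP blk a b ↔ v ∈ Y ∩ PP blk a b := by rw [h]
    rw [Finset.mem_inter, Finset.mem_inter] at this
    exact ⟨fun h1 => (this.1 ⟨h1, hv⟩).1, fun h1 => (this.2 ⟨h1, hv⟩).1⟩
  have hmem : ∀ (i : Fin m) (v : V), blk v = blk (a i) ∨ blk v = blk (b i) → v ∈ PP blk a b := by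
    intro i v hv
    rw [PP, Finset.mem_filter]
    exact ⟨Finset.mem_univ _, i, hv⟩
  have hcb : ∀ (i : Fin m) (c : V), c = blk (a i) ∨ c = blk (b i) →
      (CutBlock blk X c ↔ CutBlock blk Y c) := by
    intro i c hci
    have hk : ∀ v, blk v = c → (v ∈ X ↔ v ∈ Y) := by
      intro v hv
      apply key
      apply hmem i
      rcases hci with h1 | h1
      · left; rw [hv, h1]
      · right; rw [hv, h1]
    constructor
    · rintro ⟨⟨v, hv, hvX⟩, v', hv', hvX'⟩
      exact ⟨⟨v, hv, (hk v hv).1 hvX⟩, v', hv', fun h1 => hvX' ((hk v' hv').2 h1)⟩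
    · rintro ⟨⟨v, hv, hvX⟩, v', hv', hvX'⟩
      exact ⟨⟨v, hv, (hk v hv).2 hvX⟩, v', hv', fun h1 => hvX' ((hk v' hv').1 h1)⟩
  ext i
  rw [Zs, Zs, Finset.mem_filter, Finset.mem_filter]
  have h1 := key (a i) (hmem i (a i) (Or.inl rfl))
  have h2 := key (b i) (hmem i (b i) (Or.inr rfl))
  rw [h1, h2, hcb i _ (Or.inl rfl), hcb i _ (Or.inr rfl)]

end graph

end Pool.Agent.H185D
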