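import Pool.Agent.H185D.ExLinks
import Pool.Agent.H185D.Numeric2
import Pool.Agent.H185D.OddCount
import Pool.Agent.H185D.SplitOff
import Pool.Agent.H185D.SplitStep
import Pool.Agent.H185D.SteinerPre
import Pool.Agent.H185D.TraceCount
import Pool.Agent.H185D.ZsPP

set_option autoImplicit false

namespace Pool.Agent.H185D
open Finset Pool.Agent.H160R2.HF Pool.Agent.H160R2.HF.OrGraph Pool.Agent.H884R2.HFP
open Pool.Agent.H185C

universe u v w

/-- complete Eulerian splitting -/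
theorem split_off {V : Type u} {κ : Type w} [Fintype V] [DecidableEq V] [DecidableEq κ]
    (lab : V → κ) (S : Set κ) (K : ℕ) (hK : Even K) (L : Multiset (V × V))
    (hev : ∀ X : Finset V, ClosedL lab X → Even (mcut L X))
    (hcon : ∀ X : Finset V, ClosedL lab X → SepT lab S X → K ≤ mcut L X) :
    ∃ L₁ : Multiset (V × V),
      (∀ q ∈ L₁, lab q.1 ∈ S ∧ lab q.2 ∈ S ∧ lab q.1 ≠ lab q.2) ∧
      (∀ X : Finset V, ClosedL lab X → SepT lab S X → K ≤ mcut L₁ X) ∧
      (∀ X : Finset V, CutsOnly lab S X → mcut L₁ X ≤ mcut L X) :=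
  split_off_of lab S K (fun L h1 h2 h3 h4 => split_step lab S K hK L h1 h2 h3 h4) L hev hcon

variable {V : Type u} {E : Type v} [Fintype V] [Fintype E] [DecidableEq V] [DecidableEq E]

theorem exists_links (G : OrGraph V E) (F : Finset E) (hF : G.IsTwoFactor F)
    (π : Equiv.Perm V) (ε : V → E) (hπ : IsPerm G F π ε) (k : ℕ) (hG : CycConn G k)
    [Fintype (OddCyc π)] [DecidableEq (OddCyc π)] :
    ∃ (m : ℕ) (a b : Fin m → V) (a' b' : Fin m → OddCyc π), Links G π a b a' b' ∧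
      m ≤ 2 * k * Fintype.card (OddCyc π) ∧
      ∀ Y : Finset (OddCyc π), (∃ y, y ∈ Y) → (∃ y, y ∉ Y) →
        2 * k ≤ (univ.filter (fun i => ¬ (a' i ∈ Y ↔ b' i ∈ Y))).card :=
  exists_links_of (fun lab S K hK L h1 h2 => split_off lab S K hK L h1 h2) G F hF π ε hπ k hG

theorem steiner_karger (G : OrGraph V E) (k a d : ℕ) (hk : 1 ≤ k) (hd : 2 * d ≤ a * k)
    (ha : 1 ≤ a) (p : V → V)
    (h : ∀ X : Finset V, Closed p X → X.Nonempty → Xᶜ.Nonempty → k ≤ (G.cut X).card)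
    (P : Finset V) (hP : P.Nonempty) (A : Finset (Finset V))
    (hA : ∀ X ∈ A, Closed p X ∧ (G.cut X).card = d)
    (hinj : ∀ X ∈ A, ∀ Y ∈ A, X ∩ P = Y ∩ P → X = Y) :
    A.card ≤ (2 * d + 1) * (2 ^ a * P.card ^ a) :=
  steiner_karger_of p (fun S K hK L h1 h2 => split_off p S K hK L h1 h2) G k a d hk hd ha h P hP A
    hA hinj

theorem trace_count' (G : OrGraph V E) (hc : G.Cubic) (k : ℕ) (hk : 3 ≤ k) (hG : CycConn G k)
    (hn : 2 * k ≤ Fintype.card V) (d : ℕ) (P : Finset V) (hP : P.Nonempty)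
    (A : Finset (Finset V)) (hA : ∀ X ∈ A, Thick G X ∧ (G.cut X).card = d)
    (hinj : ∀ X ∈ A, ∀ Y ∈ A, X ∩ P = Y ∩ P → X = Y) :
    A.card ≤ 1000000 ^ d * ((2 * d + 1) * (2 * P.card) ^ (2 * d / k + 1)) :=
  trace_count G hc k hk hG (fun a d hk hd ha p h P hP A hA hinj =>
    steiner_karger G k a d hk hd ha p h P hP A hA hinj) hn d P hP A hA hinj

end Pool.Agent.H185D
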