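import Pool.Agent.H185D.Defs

set_option autoImplicit false

namespace Pool.Agent.H185D.Stubs
open Finset Pool.Agent.H160R2.HF Pool.Agent.H160R2.HF.OrGraph Pool.Agent.H884R2.HFP
open Pool.Agent.H185C Pool.Agent.H185D

universe u v w

section split
variable {V : Type u} {κ : Type w} [Fintype V] [DecidableEq V] [DecidableEq κ]

/-! ### S1: one splitting step -/

theorem split_step (lab : V → κ) (S : Set κ) (K : ℕ) (hK : Even K) (L : Multiset (V × V))
    (hnl : ∀ q ∈ L, lab q.1 ≠ lab q.2)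
    (hev : ∀ X : Finset V, ClosedL lab X → Even (mcut L X))
    (hcon : ∀ X : Finset V, ClosedL lab X → SepT lab S X → K ≤ mcut L X)
    (hz : ∃ q ∈ L, lab q.1 ∉ S ∨ lab q.2 ∉ S) :
    ∃ L₁ : Multiset (V × V), L₁.card < L.card ∧
      (∀ X : Finset V, ClosedL lab X → Even (mcut L₁ X)) ∧
      (∀ X : Finset V, ClosedL lab X → SepT lab S X → K ≤ mcut L₁ X) ∧
      (∀ X : Finset V, CutsOnly lab S X → mcut L₁ X ≤ mcut L X) := by
  sorry

/-! ### S2: complete splitting (uses S1) -/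

theorem split_off (lab : V → κ) (S : Set κ) (K : ℕ) (hK : Even K) (L : Multiset (V × V))
    (hev : ∀ X : Finset V, ClosedL lab X → Even (mcut L X))
    (hcon : ∀ X : Finset V, ClosedL lab X → SepT lab S X → K ≤ mcut L X) :
    ∃ L₁ : Multiset (V × V),
      (∀ q ∈ L₁, lab q.1 ∈ S ∧ lab q.2 ∈ S ∧ lab q.1 ≠ lab q.2) ∧
      (∀ X : Finset V, ClosedL lab X → SepT lab S X → K ≤ mcut L₁ X) ∧
      (∀ X : Finset V, CutsOnly lab S X → mcut L₁ X ≤ mcut L X) := by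
  sorry

end split

/-! ### S3: sparse certificates -/

theorem sparse {ι : Type u} {α : Type v} [Fintype ι] [DecidableEq ι] [DecidableEq α]
    (a b : α → ι) (K : ℕ) (A : Finset α)
    (h : ∀ Y : Finset ι, (∃ y, y ∈ Y) → (∃ y, y ∉ Y) →
      K ≤ (A.filter (fun e => ¬ (a e ∈ Y ↔ b e ∈ Y))).card) :
    ∃ A' ⊆ A, A'.card ≤ K * Fintype.card ι ∧
      ∀ Y : Finset ι, (∃ y, y ∈ Y) → (∃ y, y ∉ Y) →
        K ≤ (A'.filter (fun e => ¬ (a e ∈ Y ↔ b e ∈ Y))).card := by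
  sorry

section graph
variable {V : Type u} {E : Type v} [Fintype V] [Fintype E] [DecidableEq V] [DecidableEq E]

/-! ### S4: the links (uses S2, S3) -/

theorem exists_links (G : OrGraph V E) (F : Finset E) (hF : G.IsTwoFactor F)
    (π : Equiv.Perm V) (ε : V → E) (hπ : IsPerm G F π ε) (k : ℕ) (hG : CycConn G k)
    [Fintype (OddCyc π)] [DecidableEq (OddCyc π)] :
    ∃ (m : ℕ) (a b : Fin m → V) (a' b' : Fin m → OddCyc π), Links G π a b a' b' ∧
      m ≤ 2 * k * Fintype.card (OddCyc π) ∧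
      ∀ Y : Finset (OddCyc π), (∃ y, y ∈ Y) → (∃ y, y ∉ Y) →
        2 * k ≤ (univ.filter (fun i => ¬ (a' i ∈ Y ↔ b' i ∈ Y))).card := by
  sorry

/-! ### S5: Karger's bound for the traces on a set of vertices (uses S2) -/

theorem steiner_karger (G : OrGraph V E) (k a d : ℕ) (hk : 1 ≤ k) (hd : 2 * d ≤ a * k)
    (ha : 1 ≤ a) (p : V → V)
    (h : ∀ X : Finset V, Closed p X → X.Nonempty → Xᶜ.Nonempty → k ≤ (G.cut X).card)
    (P : Finset V) (hP : P.Nonempty) (A : Finset (Finset V))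
    (hA : ∀ X ∈ A, Closed p X ∧ (G.cut X).card = d)
    (hinj : ∀ X ∈ A, ∀ Y ∈ A, X ∩ P = Y ∩ P → X = Y) :
    A.card ≤ (2 * d + 1) * (2 ^ a * P.card ^ a) := by
  sorry

/-! ### S6: counting traces of cuts (uses S5) -/

theorem trace_count (G : OrGraph V E) (hc : G.Cubic) (k : ℕ) (hk : 3 ≤ k) (hG : CycConn G k)
    (hn : 2 * k ≤ Fintype.card V) (d : ℕ) (P : Finset V) (hP : P.Nonempty)
    (A : Finset (Finset V)) (hA : ∀ X ∈ A, Thick G X ∧ (G.cut X).card = d)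
    (hinj : ∀ X ∈ A, ∀ Y ∈ A, X ∩ P = Y ∩ P → X = Y) :
    A.card ≤ 1000000 ^ d * ((2 * d + 1) * (2 * P.card) ^ (2 * d / k + 1)) := by
  sorry

/-! ### S8: the number of odd cycles -/

theorem card_oddCyc (G : OrGraph V E) (F : Finset E) (hF : G.IsTwoFactor F)
    (π : Equiv.Perm V) (ε : V → E) (hπ : IsPerm G F π ε) :
    Nat.card (OddCyc π) = G.oddCount F := by
  sorry

/-! ### S9: `Zs` and `PP` -/

theorem card_Zs (G : OrGraph V E) (hc : G.Cubic) (F : Finset E)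
    (π : Equiv.Perm V) (ε : V → E) (hπ : IsPerm G F π ε) (L : ℕ) (hL : 1 ≤ L) (blk : V → V)
    (hb : IsBlocks π L blk) {m : ℕ} (a b : Fin m → V) (hne : ∀ i, a i ≠ b i)
    (hcut : ∀ X : Finset V,
      (univ.filter (fun i => ¬ (a i ∈ X ↔ b i ∈ X))).card ≤ 2 * (G.cut X).card)
    (X : Finset V) : (Zs blk a b X).card ≤ 14 * L * (G.cut X).card := by
  sorry

theorem card_PP (π : Equiv.Perm V) (L : ℕ) (blk : V → V) (hb : IsBlocks π L blk) {m : ℕ}
    (a b : Fin m → V) : (PP blk a b).card ≤ 4 * L * m := by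
  sorry

theorem Zs_trace (blk : V → V) {m : ℕ} (a b : Fin m → V) (X Y : Finset V)
    (h : X ∩ PP blk a b = Y ∩ PP blk a b) : Zs blk a b X = Zs blk a b Y := by
  sorry

end graph

/-! ### S7: the numerical estimate -/

theorem numeric2 : ∃ k₀ : ℕ, ∀ k w q M : ℕ, k₀ ≤ k → 1 ≤ w → w ^ 16 ≤ k ^ k →
    q ≤ 8 * LL * k * w →
    ∑ d ∈ Finset.Icc k M, ((1000000 : ℝ) ^ d * ((2 * d + 1) * (2 * q) ^ (2 * d / k + 1)) *
      ((14 * LL * d).choose (d / 5 + 1) : ℝ) * (1 / k) ^ (d / 5 + 1)) < 1 := by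
  sorry

end Pool.Agent.H185D.Stubs
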